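import Mathlib

set_option autoImplicit false

namespace Pool.Agent.KS6_87.HN

/-- Uniform binary cascades: `Casc P θ β L lo hi` says that there is a full binary tree whose
leaves are reals satisfying `P`, whose nodes at depth `i` belong to the level `L[i]`; a node of
level `k` has diameter at most `θ k` and the gap between its two children is at least `θ k / β`. -/
inductive Casc (P : ℝ → Prop) (θ : ℕ → ℝ) (β : ℝ) : List ℕ → ℝ → ℝ → Prop
  | leaf (x : ℝ) (hx : P x) : Casc P θ β [] x x
  | node (k : ℕ) (L : List ℕ) (a a' c' c : ℝ) (h1 : Casc P θ β L a a') (h2 : Casc P θ β L c' c)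
      (hup : c - a ≤ θ k) (hgap : θ k ≤ β * (c' - a')) : Casc P θ β (k :: L) a c

theorem Casc.nil_inv {P : ℝ → Prop} {θ : ℕ → ℝ} {β lo hi : ℝ}
    (h : Casc P θ β [] lo hi) : lo = hi ∧ P lo := by
  cases h with
  | leaf x hx => exact ⟨rfl, hx⟩

theorem Casc.cons_inv {P : ℝ → Prop} {θ : ℕ → ℝ} {β : ℝ} {k : ℕ} {L : List ℕ} {a c : ℝ}
    (h : Casc P θ β (k :: L) a c) :
    ∃ a' c', Casc P θ β L a a' ∧ Casc P θ β L c' c ∧ c - a ≤ θ k ∧ θ k ≤ β * (c' - a') := by
  cases h with
  | node k L a a' c' c h1 h2 h3 h4 => exact ⟨a', c', h1, h2, h3, h4⟩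

theorem Casc.le {P : ℝ → Prop} {θ : ℕ → ℝ} {β : ℝ} (hβ : 0 < β) (hθ : ∀ k, 0 < θ k)
    {L : List ℕ} {a c : ℝ} (h : Casc P θ β L a c) : a ≤ c := by
  induction h with
  | leaf x hx => exact le_refl _
  | node k L a a' c' c h1 h2 hup hgap ih1 ih2 =>
    have h3 : 0 < β * (c' - a') := lt_of_lt_of_le (hθ k) hgap
    have h4 : 0 < c' - a' := by
      by_contra hc
      push Not at hc
      have := mul_nonpos_of_nonneg_of_nonpos hβ.le hc
      linarith
    linarith

theorem lt_gap {θ : ℕ → ℝ} {β : ℝ} (hβ : 0 < β) (hθ : ∀ k, 0 < θ k)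
    {k : ℕ} {a' c' : ℝ} (h : θ k ≤ β * (c' - a')) : a' < c' := by
  have h3 : 0 < β * (c' - a') := lt_of_lt_of_le (hθ k) h
  have h4 : 0 < c' - a' := by
    by_contra hc
    push Not at hc
    have := mul_nonpos_of_nonneg_of_nonpos hβ.le hc
    linarith
  linarith

/-- monotone change of predicate -/
theorem Casc.mono {P Q : ℝ → Prop} (hPQ : ∀ x, P x → Q x) {θ : ℕ → ℝ} {β : ℝ}
    {L : List ℕ} {a c : ℝ} (h : Casc P θ β L a c) : Casc Q θ β L a c := by
  induction h with
  | leaf x hx => exact Casc.leaf x (hPQ x hx)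
  | node k L a a' c' c h1 h2 hup hgap ih1 ih2 => exact Casc.node k L a a' c' c ih1 ih2 hup hgap

theorem Casc.mem_left {P : ℝ → Prop} {θ : ℕ → ℝ} {β : ℝ}
    {L : List ℕ} {a c : ℝ} (h : Casc P θ β L a c) : P a := by
  induction h with
  | leaf x hx => exact hx
  | node k L a a' c' c h1 h2 hup hgap ih1 ih2 => exact ih1

theorem Casc.mem_right {P : ℝ → Prop} {θ : ℕ → ℝ} {β : ℝ}
    {L : List ℕ} {a c : ℝ} (h : Casc P θ β L a c) : P c := by
  induction h with
  | leaf x hx => exact hx
  | node k L a a' c' c h1 h2 hup hgap ih1 ih2 => exact ih2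

/-- scaling and shifting a cascade -/
theorem Casc.scale {P Q : ℝ → Prop} {θ θ' : ℕ → ℝ} {β β' : ℝ} {σ : ℝ} {s : ℕ} (hσ : 0 < σ)
    (hPQ : ∀ x, P x → Q (σ * x))
    (hup : ∀ k, σ * θ k ≤ θ' (k + s)) (hlow : ∀ k x, θ k ≤ β * x → θ' (k + s) ≤ β' * (σ * x))
    {L : List ℕ} {a c : ℝ} (h : Casc P θ β L a c) :
    Casc Q θ' β' (L.map (· + s)) (σ * a) (σ * c) := by
  induction h with
  | leaf x hx => exact Casc.leaf _ (hPQ x hx)
  | node k L a a' c' c h1 h2 hu hg ih1 ih2 =>
    rw [List.map_cons]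
    refine Casc.node _ _ _ (σ * a') (σ * c') _ ih1 ih2 ?_ ?_
    · calc σ * c - σ * a = σ * (c - a) := by ring
        _ ≤ σ * θ k := by
          apply mul_le_mul_of_nonneg_left hu hσ.le
        _ ≤ _ := hup k
    · have := hlow k _ hg
      calc θ' (k + s) ≤ β' * (σ * (c' - a')) := this
        _ = _ := by ring

/-- restricting the level list -/
theorem Casc.filter {P : ℝ → Prop} {θ : ℕ → ℝ} {β : ℝ} (hβ : 0 < β) (hθ : ∀ k, 0 < θ k)
    (p : ℕ → Bool)
    {L : List ℕ} {a c : ℝ} (h : Casc P θ β L a c) :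
    ∃ a₁ c₁, a ≤ a₁ ∧ c₁ ≤ c ∧ Casc P θ β (L.filter p) a₁ c₁ := by
  induction h with
  | leaf x hx => exact ⟨x, x, le_refl _, le_refl _, Casc.leaf x hx⟩
  | node k L a a' c' c h1 h2 hu hg ih1 ih2 =>
    obtain ⟨a₁, c₁, h3, h4, h5⟩ := ih1
    obtain ⟨a₂, c₂, h6, h7, h8⟩ := ih2
    have hlt : a' < c' := lt_gap hβ hθ hg
    have hac : c' ≤ c := h2.le hβ hθ
    by_cases hp : p k = true
    · rw [List.filter_cons_of_pos hp]
      refine ⟨a₁, c₂, h3, h7, Casc.node k _ a₁ c₁ a₂ c₂ h5 h8 (by linarith) ?_⟩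
      have : β * (c' - a') ≤ β * (a₂ - c₁) := by
        apply mul_le_mul_of_nonneg_left _ hβ.le
        linarith
      linarith
    · rw [List.filter_cons_of_neg hp]
      exact ⟨a₁, c₁, h3, by linarith, h5⟩

/-! ### weights on subsets of levels -/

/-- `Wt b n k f` is the sum of `b ^ |L| * f L` over all subsets `L` of `{k, …, k+n-1}`. -/
def Wt (b : ℝ) : ℕ → ℕ → (List ℕ → ℝ) → ℝ
  | 0, _, f => f []
  | n + 1, k, f => Wt b n (k + 1) f + b * Wt b n (k + 1) (fun L => f (k :: L))

theorem Wt_add (b : ℝ) (n : ℕ) : ∀ (k : ℕ) (f g : List ℕ → ℝ),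
    Wt b n k (fun L => f L + g L) = Wt b n k f + Wt b n k g := by
  induction n with
  | zero => intro k f g; rfl
  | succ n ih =>
    intro k f g
    simp only [Wt]
    rw [ih, ih]
    ring

theorem Wt_zero (b : ℝ) (n : ℕ) : ∀ (k : ℕ), Wt b n k (fun _ => 0) = 0 := by
  induction n with
  | zero => intro k; rfl
  | succ n ih =>
    intro k
    simp only [Wt]
    rw [ih]
    ring

theorem Wt_smul (b : ℝ) (n : ℕ) : ∀ (k : ℕ) (c : ℝ) (f : List ℕ → ℝ),
    Wt b n k (fun L => c * f L) = c * Wt b n k f := by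
  induction n with
  | zero => intro k c f; rfl
  | succ n ih =>
    intro k c f
    simp only [Wt]
    rw [ih, ih]
    ring

theorem Wt_sum (b : ℝ) (n k : ℕ) {ι : Type*} (s : Finset ι) (f : ι → List ℕ → ℝ) :
    Wt b n k (fun L => ∑ i ∈ s, f i L) = ∑ i ∈ s, Wt b n k (f i) := by
  classical
  induction s using Finset.induction_on with
  | empty => simp [Wt_zero]
  | insert a s ha ih =>
    simp only [Finset.sum_insert ha]
    rw [Wt_add, ih]

theorem Wt_mono {b : ℝ} (hb : 0 ≤ b) (n : ℕ) : ∀ (k : ℕ) (f g : List ℕ → ℝ),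
    (∀ L, f L ≤ g L) → Wt b n k f ≤ Wt b n k g := by
  induction n with
  | zero => intro k f g h; exact h []
  | succ n ih =>
    intro k f g h
    simp only [Wt]
    have h1 := ih (k + 1) f g h
    have h2 := ih (k + 1) (fun L => f (k :: L)) (fun L => g (k :: L)) (fun L => h _)
    have := mul_le_mul_of_nonneg_left h2 hb
    linarith

/-- upper bound when only short lists count -/
theorem Wt_le {b : ℝ} (hb : 0 ≤ b) (n : ℕ) : ∀ (k D : ℕ) (f : List ℕ → ℝ),
    (∀ L, L.Sublist (List.range' k n) → f L ≤ 1) →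
    (∀ L, L.Sublist (List.range' k n) → D < L.length → f L ≤ 0) →
    Wt b n k f ≤ (1 + n * b) ^ D := by
  induction n with
  | zero =>
    intro k D f h1 _
    simp only [Wt]
    have := h1 [] (List.nil_sublist _)
    simpa using this
  | succ n ih =>
    intro k D f h1 h2
    simp only [Wt]
    have hsub : ∀ L : List ℕ, L.Sublist (List.range' (k + 1) n) →
        L.Sublist (List.range' k (n + 1)) := by
      intro L hL
      rw [List.range'_succ]
      exact hL.cons _
    have hsub' : ∀ L : List ℕ, L.Sublist (List.range' (k + 1) n) →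
        (k :: L).Sublist (List.range' k (n + 1)) := by
      intro L hL
      rw [List.range'_succ]
      exact hL.cons_cons _
    have e1 := ih (k + 1) D f (fun L hL => h1 L (hsub L hL)) (fun L hL h => h2 L (hsub L hL) h)
    have hn : (0 : ℝ) ≤ n * b := by positivity
    rcases Nat.eq_zero_or_pos D with hD | hD
    · subst hD
      have e2 : Wt b n (k + 1) (fun L => f (k :: L)) ≤ 0 := by
        have e3 : Wt b n (k + 1) (fun L => f (k :: L)) ≤ Wt b n (k + 1) (fun _ => 0) := by
          -- restrict to sublists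
          clear ih e1
          have : ∀ (m : ℕ) (j : ℕ) (g : List ℕ → ℝ),
              (∀ L, L.Sublist (List.range' j m) → g L ≤ 0) → Wt b m j g ≤ 0 := by
            intro m
            induction m with
            | zero => intro j g hg; exact hg [] (List.nil_sublist _)
            | succ m ihm =>
              intro j g hg
              simp only [Wt]
              have q1 := ihm (j + 1) g (fun L hL => hg L (by
                rw [List.range'_succ]; exact hL.cons _))
              have q2 := ihm (j + 1) (fun L => g (j :: L)) (fun L hL => hg _ (by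
                rw [List.range'_succ]; exact hL.cons_cons _))
              have := mul_nonpos_of_nonneg_of_nonpos hb q2
              linarith
          rw [Wt_zero]
          exact this n (k + 1) _ (fun L hL => h2 _ (hsub' L hL) (by simp))
        rw [Wt_zero] at e3
        exact e3
      have := mul_nonpos_of_nonneg_of_nonpos hb e2
      simp only [pow_zero] at e1 ⊢
      linarith
    · obtain ⟨D', rfl⟩ : ∃ D', D = D' + 1 := ⟨D - 1, by omega⟩
      have e2 := ih (k + 1) D' (fun L => f (k :: L)) (fun L hL => h1 _ (hsub' L hL))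
        (fun L hL h => h2 _ (hsub' L hL) (by simp; omega))
      have e3 := mul_le_mul_of_nonneg_left e2 hb
      have e4 : (1 + (n : ℝ) * b) ^ D' ≤ (1 + ((n + 1 : ℕ) : ℝ) * b) ^ D' := by
        apply pow_le_pow_left₀ (by linarith)
        push_cast
        nlinarith
      calc Wt b n (k + 1) f + b * Wt b n (k + 1) (fun L => f (k :: L))
          ≤ (1 + n * b) ^ (D' + 1) + b * (1 + n * b) ^ D' := by linarith
        _ = (1 + n * b) ^ D' * (1 + (n + 1 : ℕ) * b) := by push_cast; ring
        _ ≤ (1 + (n + 1 : ℕ) * b) ^ D' * (1 + (n + 1 : ℕ) * b) := by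
            apply mul_le_mul_of_nonneg_right e4
            positivity
        _ = _ := by ring

end Pool.Agent.KS6_87.HN
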