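import Mathlib

set_option autoImplicit false

namespace Pool.Agent.KS6_87.HN

open Finset

theorem hit_aux {α ι : Type*} [DecidableEq α] [DecidableEq ι] (U : Finset α) (G : ι → Finset α)
    (D : ℕ) (hD : 0 < D) (W : Finset ι) (hG : ∀ t ∈ W, G t ⊆ U ∧ U.card ≤ D * (G t).card)
    (hU : U.Nonempty) (q : ℕ) :
    ∃ H : Finset α, H ⊆ U ∧ H.card ≤ q ∧
      ((W.filter (fun t => Disjoint (G t) H)).card : ℝ) ≤ (1 - 1 / (D : ℝ)) ^ q * W.card := by
  induction q with
  | zero =>
    refine ⟨∅, by simp, by simp, ?_⟩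
    simp
  | succ q ih =>
    obtain ⟨H, hHU, hHq, hH⟩ := ih
    set W' := W.filter (fun t => Disjoint (G t) H) with hW'
    have hDR : (0 : ℝ) < D := by exact_mod_cast hD
    -- a popular element
    obtain ⟨u, hu, hpop⟩ : ∃ u ∈ U, W'.card ≤ D * (W'.filter (fun t => u ∈ G t)).card := by
      by_contra hcon
      push Not at hcon
      have h1 : ∑ u ∈ U, D * (W'.filter (fun t => u ∈ G t)).card < ∑ _u ∈ U, W'.card :=
        Finset.sum_lt_sum_of_nonempty hU hcon
      rw [← Finset.mul_sum, Finset.sum_const, smul_eq_mul] at h1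
      have h2 : ∑ u ∈ U, (W'.filter (fun t => u ∈ G t)).card = ∑ t ∈ W', (G t).card := by
        have := Finset.sum_card_bipartiteAbove_eq_sum_card_bipartiteBelow
          (s := U) (t := W') (r := fun u t => u ∈ G t)
        simp only [Finset.bipartiteAbove, Finset.bipartiteBelow] at this
        rw [this]
        apply Finset.sum_congr rfl
        intro t ht
        congr 1
        ext u
        simp only [Finset.mem_filter]
        constructor
        · rintro ⟨_, h⟩; exact h
        · intro h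
          exact ⟨(hG t (Finset.mem_filter.mp ht).1).1 h, h⟩
      rw [h2, Finset.mul_sum] at h1
      have h3 : ∑ _t ∈ W', U.card ≤ ∑ t ∈ W', D * (G t).card :=
        Finset.sum_le_sum (fun t ht => (hG t (Finset.mem_filter.mp ht).1).2)
      rw [Finset.sum_const, smul_eq_mul, mul_comm] at h3
      omega
    refine ⟨insert u H, Finset.insert_subset hu hHU, ?_, ?_⟩
    · exact (Finset.card_insert_le _ _).trans (by omega)
    · have h1 : W.filter (fun t => Disjoint (G t) (insert u H)) ⊆
          W'.filter (fun t => ¬ (u ∈ G t)) := by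
        intro t ht
        rw [Finset.mem_filter, Finset.disjoint_insert_right] at ht
        rw [Finset.mem_filter, hW', Finset.mem_filter]
        exact ⟨⟨ht.1, ht.2.2⟩, ht.2.1⟩
      have h2 := Finset.card_le_card h1
      have h3 := Finset.card_filter_add_card_filter_not (s := W') (fun t => u ∈ G t)
      have h4 : ((W'.filter (fun t => ¬ (u ∈ G t))).card : ℝ) ≤ (1 - 1 / (D : ℝ)) * W'.card := by
        have e1 : ((W'.filter (fun t => u ∈ G t)).card : ℝ) +
            (W'.filter (fun t => ¬ (u ∈ G t))).card = W'.card := by exact_mod_cast h3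
        have e2 : (W'.card : ℝ) ≤ D * (W'.filter (fun t => u ∈ G t)).card := by
          exact_mod_cast hpop
        have e3 : (W'.card : ℝ) / D ≤ (W'.filter (fun t => u ∈ G t)).card := by
          rw [div_le_iff₀ hDR]; linarith
        have e4 : (1 - 1 / (D : ℝ)) * W'.card = W'.card - W'.card / D := by ring
        rw [e4]; linarith
      have h5 : (0 : ℝ) ≤ 1 - 1 / D := by
        rw [sub_nonneg, div_le_one hDR]; exact_mod_cast hD
      calc ((W.filter (fun t => Disjoint (G t) (insert u H))).card : ℝ)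
          ≤ ((W'.filter (fun t => ¬ (u ∈ G t))).card : ℝ) := by exact_mod_cast h2
        _ ≤ (1 - 1 / (D : ℝ)) * W'.card := h4
        _ ≤ (1 - 1 / (D : ℝ)) * ((1 - 1 / (D : ℝ)) ^ q * W.card) :=
            mul_le_mul_of_nonneg_left hH h5
        _ = _ := by ring

theorem pow_le_half (D : ℕ) (hD : 0 < D) : (1 - 1 / (D : ℝ)) ^ D ≤ 1 / 2 := by
  have h1 := Real.one_sub_div_pow_le_exp_neg (n := D) (t := 1) (by exact_mod_cast hD)
  have h2 : Real.exp (-1) ≤ 1 / 2 := by
    have := Real.exp_neg_one_lt_half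
    linarith
  exact h1.trans h2

theorem hit {α ι : Type*} [DecidableEq α] [DecidableEq ι] (U : Finset α) (G : ι → Finset α)
    (D e : ℕ) (hD : 0 < D) (W : Finset ι) (hG : ∀ t ∈ W, G t ⊆ U ∧ U.card ≤ D * (G t).card)
    (hU : U.Nonempty) (hW : W.card < 2 ^ e) :
    ∃ H : Finset α, H ⊆ U ∧ H.card ≤ D * e ∧ ∀ t ∈ W, ∃ u ∈ H, u ∈ G t := by
  obtain ⟨H, h1, h2, h3⟩ := hit_aux U G D hD W hG hU (D * e)
  refine ⟨H, h1, h2, ?_⟩
  have h4 : (1 - 1 / (D : ℝ)) ^ (D * e) * W.card < 1 := by
    rw [pow_mul]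
    have h5 : (0 : ℝ) ≤ 1 - 1 / D := by
      rw [sub_nonneg, div_le_one (by exact_mod_cast hD)]; exact_mod_cast hD
    have h6 : ((1 - 1 / (D : ℝ)) ^ D) ^ e ≤ (1 / 2 : ℝ) ^ e :=
      pow_le_pow_left₀ (pow_nonneg h5 _) (pow_le_half D hD) e
    have h7 : (W.card : ℝ) < 2 ^ e := by exact_mod_cast hW
    calc ((1 - 1 / (D : ℝ)) ^ D) ^ e * W.card ≤ (1 / 2 : ℝ) ^ e * W.card :=
          mul_le_mul_of_nonneg_right h6 (by positivity)
      _ < (1 / 2 : ℝ) ^ e * 2 ^ e := mul_lt_mul_of_pos_left h7 (by positivity)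
      _ = 1 := by rw [← mul_pow]; norm_num
  have h5 : (W.filter (fun t => Disjoint (G t) H)).card = 0 := by
    have : ((W.filter (fun t => Disjoint (G t) H)).card : ℝ) < 1 := lt_of_le_of_lt h3 h4
    have : (W.filter (fun t => Disjoint (G t) H)).card < 1 := by exact_mod_cast this
    omega
  rw [Finset.card_eq_zero, Finset.filter_eq_empty_iff] at h5
  intro t ht
  have := h5 ht
  rw [Finset.not_disjoint_iff] at this
  obtain ⟨u, hu1, hu2⟩ := this
  exact ⟨u, hu2, hu1⟩

/-- Choice of shifts: for a list `L` of levels below `r * l` with `r ≤ l * |L|` there is a small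
set `H` of shifts in `[l, l + 2 r l)` such that every `t ∈ [r l + l, 2 r l + l)` is of the form
`k + w` with `k ∈ L`, `w ∈ H`. -/
theorem shifts (l r : ℕ) (L : List ℕ) (hl : 1 ≤ l) (hr : 1 ≤ r)
    (hL : L.Sublist (List.range' 0 (r * l))) (hlen : r ≤ l * L.length) (hrl : r * l < 2 ^ l) :
    ∃ H : Finset ℕ, H ⊆ Finset.Ico l (l + 2 * (r * l)) ∧ H.card ≤ 2 * l ^ 2 * l ∧
      ∀ t, r * l + l ≤ t → t < 2 * (r * l) + l → ∃ w ∈ H, ∃ k ∈ L, k + w = t := by
  classical
  have hnd : L.Nodup := List.Nodup.sublist hL (List.nodup_range' (s := 0) (n := r * l))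
  have hbd : ∀ k ∈ L, k < r * l := by
    intro k hk
    have := hL.subset hk
    rw [List.mem_range'] at this
    obtain ⟨i, hi, rfl⟩ := this
    omega
  obtain ⟨H, h1, h2, h3⟩ := hit (Finset.Ico l (l + 2 * (r * l)))
    (fun t : ℕ => (L.toFinset.image (fun k => t - k)))
    (2 * l ^ 2) l (by positivity) (Finset.Ico (r * l + l) (2 * (r * l) + l)) (by
      intro t ht
      rw [Finset.mem_Ico] at ht
      constructor
      · intro w hw
        rw [Finset.mem_image] at hw
        obtain ⟨k, hk, rfl⟩ := hw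
        rw [List.mem_toFinset] at hk
        have := hbd k hk
        rw [Finset.mem_Ico]
        omega
      · rw [Finset.card_image_of_injOn, List.toFinset_card_of_nodup hnd]
        · rw [Nat.card_Ico]
          have e1 : l + 2 * (r * l) - l = 2 * l * r := by
            have : l + 2 * (r * l) - l = 2 * (r * l) := by omega
            rw [this]; ring
          rw [e1]
          calc 2 * l * r ≤ 2 * l * (l * L.length) := Nat.mul_le_mul_left _ hlen
            _ = 2 * l ^ 2 * L.length := by ring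
        · intro k hk k' hk' h
          rw [Finset.mem_coe, List.mem_toFinset] at hk hk'
          have g1 := hbd k hk
          have g2 := hbd k' hk'
          simp only at h
          omega) (by
      rw [Finset.nonempty_Ico]
      have : 0 < r * l := by positivity
      omega) (by
      rw [Nat.card_Ico]
      omega)
  refine ⟨H, h1, h2, ?_⟩
  intro t ht1 ht2
  obtain ⟨w, hw1, hw2⟩ := h3 t (by rw [Finset.mem_Ico]; omega)
  rw [Finset.mem_image] at hw2
  obtain ⟨k, hk, rfl⟩ := hw2
  rw [List.mem_toFinset] at hk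
  have := hbd k hk
  exact ⟨t - k, hw1, k, hk, by omega⟩

end Pool.Agent.KS6_87.HN
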