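import Pool.Agent.KS6_87.HN.Step2

set_option autoImplicit false

namespace Pool.Agent.KS6_87.HN

open Finset
open scoped Nat

theorem two_pow_dvd_factorial (k : ℕ) : 2 ^ k ∣ (2 * k)! := by
  rcases Nat.eq_zero_or_pos k with h | h
  · subst h; simp
  · have h1 : (2 * k)‼ = 2 ^ k * k ! := Nat.doubleFactorial_two_mul k
    have h2 : (2 * k)! = (2 * k)‼ * (2 * k - 1)‼ := by
      obtain ⟨j, hj⟩ : ∃ j, 2 * k = j + 1 := ⟨2 * k - 1, by omega⟩
      rw [hj, Nat.factorial_eq_mul_doubleFactorial]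
      simp
    rw [h2, h1, mul_assoc]
    exact dvd_mul_right _ _

theorem Sub.le {N k m m' : ℕ} (h : Sub N k m m') : m' ≤ m := by
  obtain ⟨M, _, _, h3⟩ := h
  omega

theorem Sub.dvd {N N' k m m' : ℕ} (h : Sub N k m m') (hN : N ∣ N') : Sub N' k m m' := by
  obtain ⟨M, h1, h2, h3⟩ := h
  exact ⟨M, h1, fun d hd => dvd_trans (h2 d hd) hN, h3⟩

/-- halving steps in terms of integers -/
theorem halve_nat (N : ℕ) (hN : 0 < N) (Res D : ℕ) (hRes : Res ∣ N)
    (hdense : ∀ z : ℝ, 1 ≤ z → z ≤ D → ∃ h : ℕ, h ∣ Res ∧ z ≤ h ∧ (h : ℝ) < 2 * z)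
    (n l : ℕ) (hn : 1 ≤ n) (hnD : n ≤ D) (hn2 : n < 2 ^ (l + 1)) (m : ℕ) (hm : m ≤ N) :
    ∃ m', Sub N (l + 1) m m' ∧ m' * n ≤ N := by
  have hNR : (0 : ℝ) < N := by exact_mod_cast hN
  have hRes0 : 0 < Res := Nat.pos_of_dvd_of_pos hRes hN
  have hnR : (1 : ℝ) ≤ n := by exact_mod_cast hn
  have hn0 : (0 : ℝ) < n := by linarith
  have hmR : (m : ℝ) ≤ N := by exact_mod_cast hm
  obtain ⟨M0, hM1, hM2, hM3, hM4⟩ := halving Res D hRes0 hdense (1 / n) (by positivity)
    (by rw [one_div_one_div]; exact_mod_cast hnD) (l + 1) ((m : ℝ) / N) (by positivity)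
    (by rw [div_le_one hNR]; exact hmR)
  set Sg : ℝ := (M0.map (fun h : ℕ => 1 / (h : ℝ))).sum with hSg
  have hle : (m : ℝ) / N - Sg ≤ 1 / n := by
    rcases hM4 with h | h
    · exact h
    · refine h.trans ?_
      rw [div_le_div_iff₀ (by positivity) hn0]
      have e1 : (m : ℝ) / N ≤ 1 := by rw [div_le_one hNR]; exact hmR
      have e2 : (n : ℝ) ≤ 2 ^ (l + 1) := by exact_mod_cast hn2.le
      have e3 : 0 ≤ (m : ℝ) / N := by positivity
      nlinarith
  set M2 : Multiset ℕ := M0.map (fun h => N / h) with hM2'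
  have hM2sum : ((M2.sum : ℕ) : ℝ) = N * Sg := by
    rw [hM2', hSg]
    have : ∀ K : Multiset ℕ, (∀ h ∈ K, h ∣ Res ∧ 0 < h) →
        (((K.map (fun h => N / h)).sum : ℕ) : ℝ) = N * (K.map (fun h : ℕ => 1 / (h : ℝ))).sum := by
      intro K
      induction K using Multiset.induction_on with
      | empty => simp
      | cons a K ih =>
        intro hK
        rw [Multiset.map_cons, Multiset.sum_cons, Multiset.map_cons, Multiset.sum_cons]
        have h1 := hK a (Multiset.mem_cons_self _ _)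
        have h2 := ih (fun h hh => hK h (Multiset.mem_cons_of_mem hh))
        have h3 : (0 : ℝ) < a := by exact_mod_cast h1.2
        rw [Nat.cast_add, h2, Nat.cast_div (dvd_trans h1.1 hRes) h3.ne']
        ring
    exact this M0 hM2
  have hNm : (N : ℝ) * ((m : ℝ) / N) = m := by field_simp
  have htot : M2.sum ≤ m := by
    have : ((M2.sum : ℕ) : ℝ) ≤ m := by
      rw [hM2sum, ← hNm]
      have : Sg ≤ (m : ℝ) / N := by linarith
      exact mul_le_mul_of_nonneg_left this hNR.le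
    exact_mod_cast this
  refine ⟨m - M2.sum, ⟨M2, ?_, ?_, by omega⟩, ?_⟩
  · rw [hM2', Multiset.card_map]; exact hM1
  · intro d hd
    rw [hM2', Multiset.mem_map] at hd
    obtain ⟨q, hq, rfl⟩ := hd
    exact Nat.div_dvd_of_dvd (dvd_trans (hM2 q hq).1 hRes)
  · have h1 : ((m - M2.sum : ℕ) : ℝ) ≤ N * (1 / n) := by
      rw [Nat.cast_sub htot, hM2sum, ← hNm, ← mul_sub]
      exact mul_le_mul_of_nonneg_left hle hNR.le
    have h2 : ((m - M2.sum : ℕ) : ℝ) * n ≤ N := by
      calc ((m - M2.sum : ℕ) : ℝ) * n ≤ N * (1 / n) * n := mul_le_mul_of_nonneg_right h1 hn0.le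
        _ = N := by field_simp
    exact_mod_cast h2

theorem level (n l : ℕ) (hl : l = Nat.log 2 n) (h10 : 10 ≤ l) (hbig : 64 * l ^ 8 ≤ 2 ^ l)
    (hfac : 512 ^ (n / 2) ≤ (n / 2)!) (m : ℕ) (hm : m ≤ n !) :
    ∃ m', m' ≤ (n / 2)! ∧ Sub (n !) (2000 * l ^ 12) m m' := by
  -- basic bounds
  have hn0 : n ≠ 0 := by
    rintro rfl
    simp at hl
    omega
  have hnl : 2 ^ l ≤ n := by rw [hl]; exact Nat.pow_log_le_self 2 hn0
  have hnu : n < 2 ^ (l + 1) := by rw [hl]; exact Nat.lt_pow_succ_log_self (by norm_num) n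
  have hn2 : 2 ≤ n := by
    refine le_trans ?_ hnl
    calc 2 = 2 ^ 1 := by norm_num
      _ ≤ 2 ^ l := Nat.pow_le_pow_right (by norm_num) (by omega)
  set a := n / 2 with ha
  set N := n ! with hN
  set B := a ! with hB
  have hN0 : 0 < N := Nat.factorial_pos n
  have hB0 : 0 < B := Nat.factorial_pos a
  have hl8 : l ^ 8 = l ^ 5 * l ^ 3 := by ring
  have hl5 : 1 ≤ l ^ 5 := Nat.one_le_pow _ _ (by omega)
  have hl3 : 1000 ≤ l ^ 3 := by
    calc 1000 = 10 ^ 3 := by norm_num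
      _ ≤ l ^ 3 := Nat.pow_le_pow_left h10 3
  -- the primes
  set W := Nat.primesLE a with hW
  have hWp : ∀ p ∈ W, p.Prime ∧ p ≤ n := by
    intro p hp
    rw [hW, Nat.mem_primesLE] at hp
    exact ⟨hp.2, by omega⟩
  have hWprod : ∏ p ∈ W, p = primorial a := rfl
  set V := ∏ p ∈ W, p with hV
  have hVB : V ∣ B := by
    apply Finset.prod_primes_dvd
    · intro p hp; exact (hWp p hp).1.prime
    · intro p hp
      rw [hW, Nat.mem_primesLE] at hp
      exact (Nat.Prime.dvd_factorial hp.2).mpr hp.1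
  have hV4 : V ≤ 4 ^ a := by rw [hWprod]; exact primorial_le_four_pow a
  have hV0 : 0 < V := by rw [hWprod]; exact primorial_pos a
  have h2E : 2 ^ (l + 1) ∣ B := by
    refine dvd_trans (two_pow_dvd_factorial (l + 1)) (Nat.factorial_dvd_factorial ?_)
    have : 64 * l ^ 8 ≤ n := hbig.trans hnl
    have h3 : l ≤ l ^ 8 := Nat.le_self_pow (by norm_num) l
    omega
  have hBBN : B * B ∣ N := by
    refine dvd_trans (Nat.factorial_mul_factorial_dvd_factorial_add a a) ?_
    exact Nat.factorial_dvd_factorial (by omega)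
  have hVEN : V * 2 ^ (l + 1) ∣ N := dvd_trans (mul_dvd_mul hVB h2E) hBBN
  set D := N / (V * 2 ^ (l + 1)) with hD
  have hDV : D * (V * 2 ^ (l + 1)) = N := Nat.div_mul_cancel hVEN
  have hD0 : 0 < D := by
    rcases Nat.eq_zero_or_pos D with h | h
    · rw [h] at hDV; omega
    · exact h
  set Res := D * 2 ^ (l + 1) with hRes
  have hResV : Res * V = N := by rw [hRes, ← hDV]; ring
  have hResN : Res ∣ N := ⟨V, hResV.symm⟩
  have hdense : ∀ z : ℝ, 1 ≤ z → z ≤ D → ∃ h : ℕ, h ∣ Res ∧ z ≤ h ∧ (h : ℝ) < 2 * z := by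
    intro z h1 h2
    apply dense n D (l + 1) hD0 hn2 ?_ hnu.le z h1 h2
    intro p hp hpD
    have : p ∣ N := dvd_trans hpD ⟨V * 2 ^ (l + 1), hDV.symm⟩
    exact (Nat.Prime.dvd_factorial hp).mp this
  -- the number S
  set q := n / (8 * l ^ 5) with hq
  have hq2 : 2 ≤ q := by
    rw [hq, Nat.le_div_iff_mul_le (by positivity)]
    have : 64 * l ^ 8 ≤ n := hbig.trans hnl
    rw [hl8] at this
    nlinarith
  set S := Nat.log 2 q with hS
  have hS1 : 1 ≤ S := by
    rw [hS]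
    exact (Nat.le_log_iff_pow_le (by norm_num) (by omega)).mpr (by simpa using hq2)
  have hSq : 2 ^ S ≤ q := Nat.pow_log_le_self 2 (by omega)
  have hqS : q < 2 ^ (S + 1) := Nat.lt_pow_succ_log_self (by norm_num) q
  have hSn : 2 ^ S * (8 * l ^ 5) ≤ n := by
    calc 2 ^ S * (8 * l ^ 5) ≤ q * (8 * l ^ 5) := Nat.mul_le_mul_right _ hSq
      _ ≤ n := Nat.div_mul_le_self _ _
  have hnS : n ≤ 2 ^ S * (16 * l ^ 5) := by
    have h1 : n < (q + 1) * (8 * l ^ 5) := by
      have := Nat.lt_mul_div_succ n (show 0 < 8 * l ^ 5 by positivity)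
      rw [hq, mul_comm]; exact this
    calc n ≤ (q + 1) * (8 * l ^ 5) := h1.le
      _ ≤ 2 ^ (S + 1) * (8 * l ^ 5) := Nat.mul_le_mul_right _ (by omega)
      _ = _ := by ring
  have hSl : S ≤ l := by
    rw [hS, hl]
    apply Nat.log_mono_right
    exact Nat.div_le_self _ _
  have hS2 : 2 * 2 ^ (S - 1) = 2 ^ S := by
    rw [← pow_succ']
    congr 1
    omega
  have ha2 : n ≤ 2 * a + 1 := by omega
  have hal : a < 2 ^ l := by
    rw [pow_succ] at hnu
    omega
  have hla : 2 * l + 10 ≤ a := by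
    have h1 : 64 * l ^ 8 ≤ n := hbig.trans hnl
    have h3 : l ≤ l ^ 8 := Nat.le_self_pow (by norm_num) l
    omega
  -- size of W
  have hWcard : 2 * l ^ 4 * 2 ^ (S - 1) ≤ W.card := by
    have hcard : W.card = Nat.primeCounting a := by
      rw [hW, Nat.primesLE, Nat.primesBelow_card_eq_primeCounting']
      rfl
    set P := W.card with hP
    have h1 := Chebyshev.pi_ge a
    rw [← hcard] at h1
    have ha1 : (1 : ℝ) < a := by exact_mod_cast (by omega : 1 < a)
    have hloga : 0 < Real.log a := Real.log_pos ha1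
    have hlog2 : 0 < Real.log 2 := Real.log_pos (by norm_num)
    rw [div_le_iff₀ hloga] at h1
    have h2 : Real.log a ≤ l * Real.log 2 := by
      rw [← Real.log_pow]
      apply Real.log_le_log (by linarith)
      exact_mod_cast hal.le
    have h3 : Real.log ((a : ℝ) + 1) ≤ l * Real.log 2 := by
      rw [← Real.log_pow]
      apply Real.log_le_log (by linarith)
      exact_mod_cast hal
    have h4 : (a : ℝ) * Real.log 2 ≤ (P * l + l) * Real.log 2 := by
      have h5 : (P : ℝ) * Real.log a ≤ P * (l * Real.log 2) :=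
        mul_le_mul_of_nonneg_left h2 (by positivity)
      nlinarith
    have h5 : (a : ℝ) ≤ P * l + l := le_of_mul_le_mul_right h4 hlog2
    have h6 : a ≤ P * l + l := by exact_mod_cast h5
    have h7 : 2 * l ^ 4 * 2 ^ (S - 1) = l ^ 4 * 2 ^ S := by rw [← hS2]; ring
    rw [h7]
    set X := l ^ 4 * 2 ^ S with hX
    have hX1 : 1 ≤ X := Nat.mul_pos (by positivity) (by positivity)
    have h8 : 8 * l * X ≤ 2 * (P * l + l) + 1 := by
      calc 8 * l * X = 2 ^ S * (8 * l ^ 5) := by rw [hX]; ring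
        _ ≤ n := hSn
        _ ≤ 2 * a + 1 := ha2
        _ ≤ _ := by omega
    by_contra hc
    push Not at hc
    have h9 : P * l + l ≤ X * l := by
      calc P * l + l = (P + 1) * l := by ring
        _ ≤ X * l := Nat.mul_le_mul_right _ hc
    have h10' : 8 * l * X ≤ 2 * (X * l) + 1 := by omega
    have h11 : 8 * l * X = 2 * (X * l) + 6 * (l * X) := by ring
    have h12 : 1 ≤ l * X := Nat.mul_pos (by omega) hX1
    omega
  have hrl : 1 + 2 * 2 ^ (S - 1) * l ^ 2 ≤ 2 ^ l := by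
    rw [hS2]
    set X := 2 ^ S * l ^ 2 with hX
    have h1 : 8 * l ^ 3 * X ≤ n := by
      calc 8 * l ^ 3 * X = 2 ^ S * (8 * l ^ 5) := by rw [hX]; ring
        _ ≤ n := hSn
    have hX1 : 1 ≤ X := Nat.mul_pos (by positivity) (by positivity)
    have h2 : 8000 * X ≤ 8 * l ^ 3 * X := Nat.mul_le_mul_right _ (by omega)
    rw [pow_succ] at hnu
    omega
  -- the main size inequality
  have hsize : (2 * l) ^ ((2 ^ S + 1) * l) * (V * 2 ^ (l + 1)) ≤ B := by
    have h1 : l * ((2 ^ S + 1) * l) ≤ a := by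
      have e1 : 8 * l ^ 3 * (2 ^ S * l ^ 2) ≤ n := by
        calc 8 * l ^ 3 * (2 ^ S * l ^ 2) = 2 ^ S * (8 * l ^ 5) := by ring
          _ ≤ n := hSn
      have e2 : 8000 * (2 ^ S * l ^ 2) ≤ 8 * l ^ 3 * (2 ^ S * l ^ 2) :=
        Nat.mul_le_mul_right _ (by omega)
      have e3 : l * ((2 ^ S + 1) * l) = 2 ^ S * l ^ 2 + l ^ 2 := by ring
      have e4 : l ^ 2 ≤ 2 ^ S * l ^ 2 := Nat.le_mul_of_pos_left _ (by positivity)
      rw [e3]
      omega
    have h2 : (2 * l) ^ ((2 ^ S + 1) * l) ≤ 2 ^ a := by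
      calc (2 * l) ^ ((2 ^ S + 1) * l) ≤ (2 ^ l) ^ ((2 ^ S + 1) * l) := by
            apply Nat.pow_le_pow_left
            have h3 : l ≤ l ^ 8 := Nat.le_self_pow (by norm_num) l
            omega
        _ = 2 ^ (l * ((2 ^ S + 1) * l)) := by rw [← pow_mul]
        _ ≤ 2 ^ a := Nat.pow_le_pow_right (by norm_num) h1
    have h3 : 2 ^ (l + 1) ≤ 2 ^ a := Nat.pow_le_pow_right (by norm_num) (by omega)
    calc (2 * l) ^ ((2 ^ S + 1) * l) * (V * 2 ^ (l + 1)) ≤ 2 ^ a * (4 ^ a * 2 ^ a) :=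
          Nat.mul_le_mul h2 (Nat.mul_le_mul hV4 h3)
      _ = 16 ^ a := by rw [← mul_pow, ← mul_pow]; norm_num
      _ ≤ 512 ^ a := Nat.pow_le_pow_left (by norm_num) a
      _ ≤ B := hfac
  have hbl : n ≤ (2 * l) ^ l := by
    calc n ≤ 2 ^ (l + 1) := hnu.le
      _ ≤ 2 ^ (2 * l) := Nat.pow_le_pow_right (by norm_num) (by omega)
      _ = 4 ^ l := by rw [pow_mul]; norm_num
      _ ≤ (2 * l) ^ l := Nat.pow_le_pow_left (by omega) l
  have hstep : ∀ s, 1 ≤ s → s ≤ S → ∀ m, B < m → m * n ^ (2 ^ (s - 1)) ≤ N →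
      ∃ m', Sub N (100 * l ^ 7) m m' ∧ m' * n ^ (2 ^ s) ≤ m := by
    intro s hs1 hsS m hBm hmN
    have hp : 2 ^ (s - 1) ≤ 2 ^ (S - 1) := Nat.pow_le_pow_right (by norm_num) (by omega)
    have hp' : 2 ^ s ≤ 2 ^ S := Nat.pow_le_pow_right (by norm_num) hsS
    obtain ⟨m', h1, h2⟩ := step n l N hN0 W hWp Res D (by rw [← hV, hResV]) hdense h10 hnu
      (by omega) s hs1 (by omega) ((Nat.mul_le_mul_left _ hp).trans hWcard)
      (by
        refine le_trans ?_ hrl
        have := Nat.mul_le_mul_right (l ^ 2) (Nat.mul_le_mul_left 2 hp)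
        omega) m (by omega) hmN (by
        calc N * (2 * l) ^ ((2 ^ s + 1) * l) ≤ N * (2 * l) ^ ((2 ^ S + 1) * l) := by
              apply Nat.mul_le_mul_left
              apply Nat.pow_le_pow_right (by omega)
              apply Nat.mul_le_mul_right
              omega
          _ = D * ((2 * l) ^ ((2 ^ S + 1) * l) * (V * 2 ^ (l + 1))) := by rw [← hDV]; ring
          _ ≤ D * m := Nat.mul_le_mul_left _ (hsize.trans hBm.le)
          _ = m * D := by ring)
    refine ⟨m', h1, le_trans (Nat.mul_le_mul_left _ ?_) h2⟩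
    calc n ^ (2 ^ s) ≤ ((2 * l) ^ l) ^ (2 ^ s) := Nat.pow_le_pow_left hbl _
      _ = (2 * l) ^ (2 ^ s * l) := by rw [← pow_mul, mul_comm l (2 ^ s)]
  -- doubling phase
  have hA : ∀ s, s ≤ S → ∃ m', Sub N ((l + 1) + s * (100 * l ^ 7)) m m' ∧
      (m' ≤ B ∨ m' * n ^ (2 ^ s) ≤ N) := by
    intro s
    induction s with
    | zero =>
      intro _
      have hnD : n ≤ D := by
        have h1 : (2 * l) ^ l ≤ (2 * l) ^ ((2 ^ S + 1) * l) := by
          apply Nat.pow_le_pow_right (by omega)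
          exact Nat.le_mul_of_pos_left _ (by positivity)
        have h2 : n * (V * 2 ^ (l + 1)) ≤ B :=
          le_trans (Nat.mul_le_mul_right _ (hbl.trans h1)) hsize
        have h3 : B ≤ N := Nat.factorial_le (by omega)
        have h4 : n * (V * 2 ^ (l + 1)) ≤ D * (V * 2 ^ (l + 1)) := by
          rw [hDV]; exact h2.trans h3
        exact Nat.le_of_mul_le_mul_right h4 (by positivity)
      obtain ⟨m', h1, h2⟩ := halve_nat N hN0 Res D hResN hdense n l (by omega) hnD hnu m hm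
      refine ⟨m', by simpa using h1, Or.inr ?_⟩
      simpa using h2
    | succ s ih =>
      intro hs
      obtain ⟨m', h1, h2⟩ := ih (by omega)
      by_cases hmB : m' ≤ B
      · exact ⟨m', h1.mono (by gcongr; omega), Or.inl hmB⟩
      · push Not at hmB
        have h3 : m' * n ^ (2 ^ s) ≤ N := by
          rcases h2 with h2 | h2
          · omega
          · exact h2
        obtain ⟨m'', h4, h5⟩ := hstep (s + 1) (by omega) hs m' hmB (by simpa using h3)
        refine ⟨m'', ?_, Or.inr ?_⟩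
        · have := h1.trans h4
          refine this.mono (le_of_eq ?_)
          ring
        · exact h5.trans (h1.le.trans hm)
  -- repeated phase
  have hR : ∀ i, ∃ m', Sub N ((l + 1) + (S + i) * (100 * l ^ 7)) m m' ∧
      (m' ≤ B ∨ (m' * n ^ (2 ^ S) ≤ N ∧ m' * (n ^ (2 ^ S)) ^ i ≤ N)) := by
    intro i
    induction i with
    | zero =>
      obtain ⟨m', h1, h2⟩ := hA S le_rfl
      refine ⟨m', by simpa using h1, ?_⟩
      rcases h2 with h2 | h2
      · exact Or.inl h2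
      · right
        refine ⟨h2, ?_⟩
        rw [pow_zero, mul_one]
        exact h1.le.trans hm
    | succ i ih =>
      obtain ⟨m', h1, h2⟩ := ih
      by_cases hmB : m' ≤ B
      · exact ⟨m', h1.mono (by gcongr; omega), Or.inl hmB⟩
      · push Not at hmB
        obtain ⟨h3, h3'⟩ : m' * n ^ (2 ^ S) ≤ N ∧ m' * (n ^ (2 ^ S)) ^ i ≤ N := by
          rcases h2 with h2 | h2
          · omega
          · exact h2
        obtain ⟨m'', h4, h5⟩ := hstep S hS1 le_rfl m' hmB (by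
          refine le_trans (Nat.mul_le_mul_left _ ?_) h3
          apply Nat.pow_le_pow_right (by omega)
          exact Nat.pow_le_pow_right (by norm_num) (by omega))
        refine ⟨m'', ?_, Or.inr ⟨?_, ?_⟩⟩
        · have := h1.trans h4
          refine this.mono (le_of_eq ?_)
          ring
        · exact h5.trans (h1.le.trans hm)
        · calc m'' * (n ^ (2 ^ S)) ^ (i + 1) = m'' * n ^ (2 ^ S) * (n ^ (2 ^ S)) ^ i := by ring
            _ ≤ m' * (n ^ (2 ^ S)) ^ i := Nat.mul_le_mul_right _ h5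
            _ ≤ N := h3'
  obtain ⟨m', h1, h2⟩ := hR (16 * l ^ 5)
  refine ⟨m', ?_, h1.mono ?_⟩
  · rcases h2 with h2 | ⟨_, h2⟩
    · exact h2
    · have h3 : n ^ n ≤ (n ^ (2 ^ S)) ^ (16 * l ^ 5) := by
        rw [← pow_mul]
        exact Nat.pow_le_pow_right (by omega) hnS
      have h4 : N ≤ n ^ n := Nat.factorial_le_pow n
      have h5 : m' * N ≤ 1 * N := by
        calc m' * N ≤ m' * (n ^ (2 ^ S)) ^ (16 * l ^ 5) := Nat.mul_le_mul_left _ (h4.trans h3)
          _ ≤ N := h2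
          _ = 1 * N := (one_mul _).symm
      have h6 : m' ≤ 1 := Nat.le_of_mul_le_mul_right h5 hN0
      omega
  · have e1 : l ^ 12 = l ^ 7 * l ^ 5 := by ring
    have e2 : l ≤ l ^ 5 := Nat.le_self_pow (by norm_num) l
    have e3 : (S + 16 * l ^ 5) * (100 * l ^ 7) ≤ 17 * l ^ 5 * (100 * l ^ 7) :=
      Nat.mul_le_mul_right _ (by omega)
    have e4 : 17 * l ^ 5 * (100 * l ^ 7) = 1700 * l ^ 12 := by ring
    have e5 : l + 1 ≤ 2 * l ^ 12 := by
      have : l ≤ l ^ 12 := Nat.le_self_pow (by norm_num) l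
      omega
    omega

end Pool.Agent.KS6_87.HN
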