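import Pool.Agent.KS6_87.HN.Main

set_option autoImplicit false

namespace Pool.Agent.KS6_87.HN

open Finset Filter
open scoped Nat

/-- One level with all step sizes: from `m ≤ N` down to `n ^ (4 l^4)`. -/
theorem level2 (n l N : ℕ) (hl : l = Nat.log 2 n) (h10 : 10 ≤ l) (hbig : 64 * l ^ 8 ≤ 2 ^ l)
    (hfac : 512 ^ (n / 2) ≤ (n / 2)!) (hNn : N ∣ n !) (hBN : (n / 2)! ∣ N)
    (hVEN : primorial (n / 2) * 2 ^ (l + 1) ∣ N) (m : ℕ) (hm : m ≤ N) :
    ∃ m', m' ≤ n ^ (4 * l ^ 4) ∧ Sub N (2000 * l ^ 12) m m' := by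
  -- basic bounds
  have hn0 : n ≠ 0 := by
    rintro rfl
    simp at hl
    omega
  have hnl : 2 ^ l ≤ n := by rw [hl]; exact Nat.pow_log_le_self 2 hn0
  have hnu : n < 2 ^ (l + 1) := by rw [hl]; exact Nat.lt_pow_succ_log_self (by norm_num) n
  have hn2 : 2 ≤ n := by
    refine le_trans ?_ hnl
    calc 2 = 2 ^ 1 := by norm_num
      _ ≤ 2 ^ l := Nat.pow_le_pow_right (by norm_num) (by omega)
  set a := n / 2 with ha
  set B := a ! with hB
  have hN0 : 0 < N := Nat.pos_of_dvd_of_pos hNn (Nat.factorial_pos n)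
  have hB0 : 0 < B := Nat.factorial_pos a
  have hBleN : B ≤ N := Nat.le_of_dvd hN0 hBN
  have hNle : N ≤ n ! := Nat.le_of_dvd (Nat.factorial_pos n) hNn
  have hl8 : l ^ 8 = l ^ 5 * l ^ 3 := by ring
  have hl5 : 1 ≤ l ^ 5 := Nat.one_le_pow _ _ (by omega)
  have hl4 : 1 ≤ l ^ 4 := Nat.one_le_pow _ _ (by omega)
  have hl3 : 1000 ≤ l ^ 3 := by
    calc 1000 = 10 ^ 3 := by norm_num
      _ ≤ l ^ 3 := Nat.pow_le_pow_left h10 3
  -- the primes
  set W := Nat.primesLE a with hW
  have hWp : ∀ p ∈ W, p.Prime ∧ p ≤ n := by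
    intro p hp
    rw [hW, Nat.mem_primesLE] at hp
    exact ⟨hp.2, by omega⟩
  have hWprod : ∏ p ∈ W, p = primorial a := rfl
  set V := ∏ p ∈ W, p with hV
  have hV4 : V ≤ 4 ^ a := by rw [hWprod]; exact primorial_le_four_pow a
  have hV0 : 0 < V := by rw [hWprod]; exact primorial_pos a
  rw [← hWprod] at hVEN
  -- the number S
  set q := n / (8 * l ^ 5) with hq
  have hq2 : 2 ≤ q := by
    rw [hq, Nat.le_div_iff_mul_le (by positivity)]
    have : 64 * l ^ 8 ≤ n := hbig.trans hnl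
    rw [hl8] at this
    nlinarith
  set S := Nat.log 2 q with hS
  have hS1 : 1 ≤ S := by
    rw [hS]
    exact (Nat.le_log_iff_pow_le (by norm_num) (by omega)).mpr (by simpa using hq2)
  have hSq : 2 ^ S ≤ q := Nat.pow_log_le_self 2 (by omega)
  have hqS : q < 2 ^ (S + 1) := Nat.lt_pow_succ_log_self (by norm_num) q
  have hSn : 2 ^ S * (8 * l ^ 5) ≤ n := by
    calc 2 ^ S * (8 * l ^ 5) ≤ q * (8 * l ^ 5) := Nat.mul_le_mul_right _ hSq
      _ ≤ n := Nat.div_mul_le_self _ _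
  have hnS : n ≤ 2 ^ S * (16 * l ^ 5) := by
    have h1 : n < (q + 1) * (8 * l ^ 5) := by
      have := Nat.lt_mul_div_succ n (show 0 < 8 * l ^ 5 by positivity)
      rw [hq, mul_comm]; exact this
    calc n ≤ (q + 1) * (8 * l ^ 5) := h1.le
      _ ≤ 2 ^ (S + 1) * (8 * l ^ 5) := Nat.mul_le_mul_right _ (by omega)
      _ = _ := by ring
  have hSl : S ≤ l := by
    rw [hS, hl]
    apply Nat.log_mono_right
    exact Nat.div_le_self _ _
  have hS2 : 2 * 2 ^ (S - 1) = 2 ^ S := by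
    rw [← pow_succ']
    congr 1
    omega
  have ha2 : n ≤ 2 * a + 1 := by omega
  have hal : a < 2 ^ l := by
    rw [pow_succ] at hnu
    omega
  have hla : 2 * l + 10 ≤ a := by
    have h1 : 64 * l ^ 8 ≤ n := hbig.trans hnl
    have h3 : l ≤ l ^ 8 := Nat.le_self_pow (by norm_num) l
    omega
  -- size of W
  have hWcard : 2 * l ^ 4 * 2 ^ (S - 1) ≤ W.card := by
    have hcard : W.card = Nat.primeCounting a := by
      rw [hW, Nat.primesLE, Nat.primesBelow_card_eq_primeCounting']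
      rfl
    set P := W.card with hP
    have h1 := Chebyshev.pi_ge a
    rw [← hcard] at h1
    have ha1 : (1 : ℝ) < a := by exact_mod_cast (by omega : 1 < a)
    have hloga : 0 < Real.log a := Real.log_pos ha1
    have hlog2 : 0 < Real.log 2 := Real.log_pos (by norm_num)
    rw [div_le_iff₀ hloga] at h1
    have h2 : Real.log a ≤ l * Real.log 2 := by
      rw [← Real.log_pow]
      apply Real.log_le_log (by linarith)
      exact_mod_cast hal.le
    have h3 : Real.log ((a : ℝ) + 1) ≤ l * Real.log 2 := by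
      rw [← Real.log_pow]
      apply Real.log_le_log (by linarith)
      exact_mod_cast hal
    have h4 : (a : ℝ) * Real.log 2 ≤ (P * l + l) * Real.log 2 := by
      have h5 : (P : ℝ) * Real.log a ≤ P * (l * Real.log 2) :=
        mul_le_mul_of_nonneg_left h2 (by positivity)
      nlinarith
    have h5 : (a : ℝ) ≤ P * l + l := le_of_mul_le_mul_right h4 hlog2
    have h6 : a ≤ P * l + l := by exact_mod_cast h5
    have h7 : 2 * l ^ 4 * 2 ^ (S - 1) = l ^ 4 * 2 ^ S := by rw [← hS2]; ring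
    rw [h7]
    set X := l ^ 4 * 2 ^ S with hX
    have hX1 : 1 ≤ X := Nat.mul_pos (by positivity) (by positivity)
    have h8 : 8 * l * X ≤ 2 * (P * l + l) + 1 := by
      calc 8 * l * X = 2 ^ S * (8 * l ^ 5) := by rw [hX]; ring
        _ ≤ n := hSn
        _ ≤ 2 * a + 1 := ha2
        _ ≤ _ := by omega
    by_contra hc
    push Not at hc
    have h9 : P * l + l ≤ X * l := by
      calc P * l + l = (P + 1) * l := by ring
        _ ≤ X * l := Nat.mul_le_mul_right _ hc
    have h10' : 8 * l * X ≤ 2 * (X * l) + 1 := by omega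
    have h11 : 8 * l * X = 2 * (X * l) + 6 * (l * X) := by ring
    have h12 : 1 ≤ l * X := Nat.mul_pos (by omega) hX1
    omega
  have hrl : 1 + 2 * 2 ^ (S - 1) * l ^ 2 ≤ 2 ^ l := by
    rw [hS2]
    set X := 2 ^ S * l ^ 2 with hX
    have h1 : 8 * l ^ 3 * X ≤ n := by
      calc 8 * l ^ 3 * X = 2 ^ S * (8 * l ^ 5) := by rw [hX]; ring
        _ ≤ n := hSn
    have hX1 : 1 ≤ X := Nat.mul_pos (by positivity) (by positivity)
    have h2 : 8000 * X ≤ 8 * l ^ 3 * X := Nat.mul_le_mul_right _ (by omega)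
    rw [pow_succ] at hnu
    omega
  have h2ln : 2 * l ≤ n := by omega
  have hbl : n ≤ (2 * l) ^ l := by
    calc n ≤ 2 ^ (l + 1) := hnu.le
      _ ≤ 2 ^ (2 * l) := Nat.pow_le_pow_right (by norm_num) (by omega)
      _ = 4 ^ l := by rw [pow_mul]; norm_num
      _ ≤ (2 * l) ^ l := Nat.pow_le_pow_left (by omega) l
  -- the threshold
  have hthr : n ^ (2 * l ^ 4 * 2 ^ S) * n ^ (2 ^ S) ≤ N := by
    refine le_trans ?_ hBleN
    refine le_trans ?_ hfac
    rw [← pow_add]
    calc n ^ (2 * l ^ 4 * 2 ^ S + 2 ^ S) ≤ (2 ^ (l + 1)) ^ (2 * l ^ 4 * 2 ^ S + 2 ^ S) :=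
          Nat.pow_le_pow_left hnu.le _
      _ = 2 ^ ((l + 1) * (2 * l ^ 4 * 2 ^ S + 2 ^ S)) := by rw [← pow_mul]
      _ ≤ 2 ^ (9 * a) := by
          apply Nat.pow_le_pow_right (by norm_num)
          have e1 : (l + 1) * (2 * l ^ 4 * 2 ^ S + 2 ^ S) =
              2 ^ S * (2 * l ^ 5 + 2 * l ^ 4 + l + 1) := by ring
          have e2 : 2 * l ^ 5 + 2 * l ^ 4 + l + 1 ≤ 8 * l ^ 5 := by
            have e3 : l ^ 5 = l * l ^ 4 := by ring
            have e4 : l ≤ l ^ 5 := Nat.le_self_pow (by norm_num) l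
            nlinarith
          rw [e1]
          have := Nat.mul_le_mul_left (2 ^ S) e2
          omega
      _ = 512 ^ a := by rw [pow_mul]; norm_num
  have hstep : ∀ s, 1 ≤ s → s ≤ S → ∀ m, n ^ (2 * l ^ 4 * 2 ^ s) ≤ m → m * n ^ (2 ^ (s - 1)) ≤ N →
      ∃ m', Sub N (100 * l ^ 7) m m' ∧ m' * n ^ (2 ^ s) ≤ m := by
    intro s hs1 hsS m hBm hmN
    have hp : 2 ^ (s - 1) ≤ 2 ^ (S - 1) := Nat.pow_le_pow_right (by norm_num) (by omega)
    have hs2 : 2 * 2 ^ (s - 1) = 2 ^ s := by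
      rw [← pow_succ']
      congr 1
      omega
    obtain ⟨W', hW'W, hW'c⟩ := Finset.exists_subset_card_eq
      ((Nat.mul_le_mul_left (2 * l ^ 4) hp).trans hWcard)
    set V' := ∏ p ∈ W', p with hV'
    have hV'V : V' ∣ V := Finset.prod_dvd_prod_of_subset _ _ _ hW'W
    have hV'0 : 0 < V' := Nat.pos_of_dvd_of_pos hV'V hV0
    have hV'n : V' ≤ n ^ (l ^ 4 * 2 ^ s) := by
      have h1 : V' ≤ ∏ _p ∈ W', n :=
        Finset.prod_le_prod' (fun p hp => (hWp p (hW'W hp)).2)
      rw [Finset.prod_const, hW'c] at h1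
      refine h1.trans (le_of_eq ?_)
      congr 1
      rw [← hs2]; ring
    have hVEN' : V' * 2 ^ (l + 1) ∣ N := dvd_trans (mul_dvd_mul_right hV'V _) hVEN
    set D := N / (V' * 2 ^ (l + 1)) with hD
    have hDV : D * (V' * 2 ^ (l + 1)) = N := Nat.div_mul_cancel hVEN'
    have hD0 : 0 < D := by
      rcases Nat.eq_zero_or_pos D with h | h
      · rw [h] at hDV; omega
      · exact h
    have hResV : D * 2 ^ (l + 1) * V' = N := by rw [← hDV]; ring
    have hdense : ∀ z : ℝ, 1 ≤ z → z ≤ D →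
        ∃ h : ℕ, h ∣ D * 2 ^ (l + 1) ∧ z ≤ h ∧ (h : ℝ) < 2 * z := by
      intro z h1 h2
      apply dense n D (l + 1) hD0 hn2 ?_ hnu.le z h1 h2
      intro p hp hpD
      have : p ∣ N := dvd_trans hpD ⟨V' * 2 ^ (l + 1), hDV.symm⟩
      exact (Nat.Prime.dvd_factorial hp).mp (dvd_trans this hNn)
    have hm0 : 0 < m := lt_of_lt_of_le (pow_pos (by omega) _) hBm
    obtain ⟨m', h1, h2⟩ := step n l N hN0 W' (fun p hp => hWp p (hW'W hp)) (D * 2 ^ (l + 1)) D
      (by rw [← hV', hResV]) hdense h10 hnu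
      (by omega) s hs1 (by omega) hW'c.ge
      (by
        refine le_trans ?_ hrl
        have := Nat.mul_le_mul_right (l ^ 2) (Nat.mul_le_mul_left 2 hp)
        omega) m hm0 hmN (by
        have hk : V' * 2 ^ (l + 1) * (2 * l) ^ ((2 ^ s + 1) * l) ≤ m := by
          refine le_trans ?_ hBm
          have k1 : 2 ^ (l + 1) ≤ n ^ 2 := by
            calc 2 ^ (l + 1) = 2 ^ l * 2 := by ring
              _ ≤ n * n := Nat.mul_le_mul hnl hn2
              _ = n ^ 2 := by ring
          have k2 : (2 * l) ^ ((2 ^ s + 1) * l) ≤ n ^ ((2 ^ s + 1) * l) :=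
            Nat.pow_le_pow_left h2ln _
          calc V' * 2 ^ (l + 1) * (2 * l) ^ ((2 ^ s + 1) * l)
              ≤ n ^ (l ^ 4 * 2 ^ s) * n ^ 2 * n ^ ((2 ^ s + 1) * l) :=
                Nat.mul_le_mul (Nat.mul_le_mul hV'n k1) k2
            _ = n ^ (l ^ 4 * 2 ^ s + 2 + (2 ^ s + 1) * l) := by rw [← pow_add, ← pow_add]
            _ ≤ n ^ (2 * l ^ 4 * 2 ^ s) := by
                apply Nat.pow_le_pow_right (by omega)
                have k3 : 1 ≤ 2 ^ s := Nat.one_le_two_pow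
                have k4 : l ^ 4 = l * l ^ 3 := by ring
                have k5 : 1000 * (l * 2 ^ s) ≤ l ^ 4 * 2 ^ s := by
                  rw [k4]
                  calc 1000 * (l * 2 ^ s) ≤ l ^ 3 * (l * 2 ^ s) := Nat.mul_le_mul_right _ hl3
                    _ = _ := by ring
                have k6 : (2 ^ s + 1) * l ≤ 2 * (l * 2 ^ s) := by nlinarith
                have k7 : 2 ≤ l * 2 ^ s := by nlinarith
                have k8 : 2 * l ^ 4 * 2 ^ s = l ^ 4 * 2 ^ s + l ^ 4 * 2 ^ s := by ring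
                omega
        calc N * (2 * l) ^ ((2 ^ s + 1) * l)
            = D * (V' * 2 ^ (l + 1) * (2 * l) ^ ((2 ^ s + 1) * l)) := by rw [← hDV]; ring
          _ ≤ D * m := Nat.mul_le_mul_left _ hk
          _ = m * D := by ring)
    refine ⟨m', h1, le_trans (Nat.mul_le_mul_left _ ?_) h2⟩
    calc n ^ (2 ^ s) ≤ ((2 * l) ^ l) ^ (2 ^ s) := Nat.pow_le_pow_left hbl _
      _ = (2 * l) ^ (2 ^ s * l) := by rw [← pow_mul, mul_comm l (2 ^ s)]
  set B' := n ^ (2 * l ^ 4 * 2 ^ S) with hB'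
  have hB'1 : 1 ≤ B' := Nat.one_le_pow _ _ (by omega)
  have hexp : ∀ s, s ≤ S → n ^ (2 * l ^ 4 * 2 ^ s) ≤ B' := fun s hs =>
    Nat.pow_le_pow_right (by omega) (Nat.mul_le_mul_left _ (Nat.pow_le_pow_right (by norm_num) hs))
  -- doubling phase
  have hA : ∀ s, s ≤ S → ∃ m', Sub N ((l + 1) + s * (100 * l ^ 7)) m m' ∧
      (m' ≤ B' ∨ m' * n ^ (2 ^ s) ≤ N) := by
    intro s
    induction s with
    | zero =>
      intro _
      set D := N / (V * 2 ^ (l + 1)) with hD
      have hDV : D * (V * 2 ^ (l + 1)) = N := Nat.div_mul_cancel hVEN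
      have hD0 : 0 < D := by
        rcases Nat.eq_zero_or_pos D with h | h
        · rw [h] at hDV; omega
        · exact h
      have hResN : D * 2 ^ (l + 1) ∣ N := ⟨V, by rw [← hDV]; ring⟩
      have hdense : ∀ z : ℝ, 1 ≤ z → z ≤ D →
          ∃ h : ℕ, h ∣ D * 2 ^ (l + 1) ∧ z ≤ h ∧ (h : ℝ) < 2 * z := by
        intro z h1 h2
        apply dense n D (l + 1) hD0 hn2 ?_ hnu.le z h1 h2
        intro p hp hpD
        have : p ∣ N := dvd_trans hpD ⟨V * 2 ^ (l + 1), hDV.symm⟩
        exact (Nat.Prime.dvd_factorial hp).mp (dvd_trans this hNn)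
      have hnD : n ≤ D := by
        have h2 : n * (V * 2 ^ (l + 1)) ≤ B := by
          calc n * (V * 2 ^ (l + 1)) ≤ 2 ^ a * (4 ^ a * 2 ^ a) := by
                apply Nat.mul_le_mul
                · exact hnu.le.trans (Nat.pow_le_pow_right (by norm_num) (by omega))
                · exact Nat.mul_le_mul hV4 (Nat.pow_le_pow_right (by norm_num) (by omega))
            _ = 16 ^ a := by rw [← mul_pow, ← mul_pow]; norm_num
            _ ≤ 512 ^ a := Nat.pow_le_pow_left (by norm_num) a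
            _ ≤ B := hfac
        have h4 : n * (V * 2 ^ (l + 1)) ≤ D * (V * 2 ^ (l + 1)) := by
          rw [hDV]; exact h2.trans hBleN
        exact Nat.le_of_mul_le_mul_right h4 (by positivity)
      obtain ⟨m', h1, h2⟩ := halve_nat N hN0 _ D hResN hdense n l (by omega) hnD hnu m hm
      refine ⟨m', by simpa using h1, Or.inr ?_⟩
      simpa using h2
    | succ s ih =>
      intro hs
      obtain ⟨m', h1, h2⟩ := ih (by omega)
      by_cases hmB : m' ≤ B'
      · exact ⟨m', h1.mono (by gcongr; omega), Or.inl hmB⟩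
      · push Not at hmB
        have h3 : m' * n ^ (2 ^ s) ≤ N := by
          rcases h2 with h2 | h2
          · omega
          · exact h2
        obtain ⟨m'', h4, h5⟩ := hstep (s + 1) (by omega) hs m' ((hexp _ hs).trans hmB.le)
          (by simpa using h3)
        refine ⟨m'', ?_, Or.inr ?_⟩
        · have := h1.trans h4
          refine this.mono (le_of_eq ?_)
          ring
        · exact h5.trans (h1.le.trans hm)
  -- repeated phase
  have hR : ∀ i, ∃ m', Sub N ((l + 1) + (S + i) * (100 * l ^ 7)) m m' ∧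
      (m' ≤ B' ∨ (m' * n ^ (2 ^ S) ≤ N ∧ m' * (n ^ (2 ^ S)) ^ i ≤ N)) := by
    intro i
    induction i with
    | zero =>
      obtain ⟨m', h1, h2⟩ := hA S le_rfl
      refine ⟨m', by simpa using h1, ?_⟩
      rcases h2 with h2 | h2
      · exact Or.inl h2
      · right
        refine ⟨h2, ?_⟩
        rw [pow_zero, mul_one]
        exact h1.le.trans hm
    | succ i ih =>
      obtain ⟨m', h1, h2⟩ := ih
      by_cases hmB : m' ≤ B'
      · exact ⟨m', h1.mono (by gcongr; omega), Or.inl hmB⟩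
      · push Not at hmB
        obtain ⟨h3, h3'⟩ : m' * n ^ (2 ^ S) ≤ N ∧ m' * (n ^ (2 ^ S)) ^ i ≤ N := by
          rcases h2 with h2 | h2
          · omega
          · exact h2
        obtain ⟨m'', h4, h5⟩ := hstep S hS1 le_rfl m' hmB.le (by
          refine le_trans (Nat.mul_le_mul_left _ ?_) h3
          apply Nat.pow_le_pow_right (by omega)
          exact Nat.pow_le_pow_right (by norm_num) (by omega))
        refine ⟨m'', ?_, Or.inr ⟨?_, ?_⟩⟩
        · have := h1.trans h4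
          refine this.mono (le_of_eq ?_)
          ring
        · exact h5.trans (h1.le.trans hm)
        · calc m'' * (n ^ (2 ^ S)) ^ (i + 1) = m'' * n ^ (2 ^ S) * (n ^ (2 ^ S)) ^ i := by ring
            _ ≤ m' * (n ^ (2 ^ S)) ^ i := Nat.mul_le_mul_right _ h5
            _ ≤ N := h3'
  obtain ⟨m1, c1, c2⟩ := hR (16 * l ^ 5)
  have hm1 : m1 ≤ B' := by
    rcases c2 with c2 | ⟨_, h2⟩
    · exact c2
    · have h3 : n ^ n ≤ (n ^ (2 ^ S)) ^ (16 * l ^ 5) := by
        rw [← pow_mul]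
        exact Nat.pow_le_pow_right (by omega) hnS
      have h4 : N ≤ n ^ n := hNle.trans (Nat.factorial_le_pow n)
      have h5 : m1 * N ≤ 1 * N := by
        calc m1 * N ≤ m1 * (n ^ (2 ^ S)) ^ (16 * l ^ 5) := Nat.mul_le_mul_left _ (h4.trans h3)
          _ ≤ N := h2
          _ = 1 * N := (one_mul _).symm
      have h6 : m1 ≤ 1 := Nat.le_of_mul_le_mul_right h5 hN0
      omega
  -- descending phase
  have hC : ∀ j, j < S → ∃ m', Sub N ((l + 1) + (S + 16 * l ^ 5) * (100 * l ^ 7) +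
      j * (2 * l ^ 4 * (100 * l ^ 7))) m m' ∧ m' ≤ n ^ (2 * l ^ 4 * 2 ^ (S - j)) := by
    intro j
    induction j with
    | zero =>
      intro _
      exact ⟨m1, by simpa using c1, by simpa using hm1⟩
    | succ j ih =>
      intro hj
      obtain ⟨m2, d1, d2⟩ := ih (by omega)
      obtain ⟨s, hs⟩ : ∃ s, s = S - (j + 1) := ⟨_, rfl⟩
      have hs1 : 1 ≤ s := by omega
      have hsj : S - j = s + 1 := by omega
      rw [hsj] at d2
      rw [← hs]
      have inner : ∀ i, ∃ m', Sub N ((l + 1) + (S + 16 * l ^ 5) * (100 * l ^ 7) +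
          j * (2 * l ^ 4 * (100 * l ^ 7)) + i * (100 * l ^ 7)) m m' ∧ m' ≤ m2 ∧
          (m' ≤ n ^ (2 * l ^ 4 * 2 ^ s) ∨
            m' * (n ^ (2 ^ s)) ^ i ≤ n ^ (2 * l ^ 4 * 2 ^ (s + 1))) := by
        intro i
        induction i with
        | zero => exact ⟨m2, by simpa using d1, le_rfl, Or.inr (by simpa using d2)⟩
        | succ i ih2 =>
          obtain ⟨m3, e1, e2, e3⟩ := ih2
          by_cases hm3 : m3 ≤ n ^ (2 * l ^ 4 * 2 ^ s)
          · exact ⟨m3, e1.mono (by gcongr; omega), e2, Or.inl hm3⟩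
          · have e4 := e3.resolve_left hm3
            push Not at hm3
            obtain ⟨m4, g1, g2⟩ := hstep s hs1 (by omega) m3 hm3.le (by
              refine le_trans ?_ hthr
              apply Nat.mul_le_mul
              · exact e2.trans (d2.trans (hexp _ (by omega)))
              · apply Nat.pow_le_pow_right (by omega)
                exact Nat.pow_le_pow_right (by norm_num) (by omega))
            refine ⟨m4, (e1.trans g1).mono (le_of_eq (by ring)), g1.le.trans e2, Or.inr ?_⟩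
            calc m4 * (n ^ (2 ^ s)) ^ (i + 1) = m4 * n ^ (2 ^ s) * (n ^ (2 ^ s)) ^ i := by ring
              _ ≤ m3 * (n ^ (2 ^ s)) ^ i := Nat.mul_le_mul_right _ g2
              _ ≤ _ := e4
      obtain ⟨m3, e1, e2, e3⟩ := inner (2 * l ^ 4)
      refine ⟨m3, e1.mono (le_of_eq (by ring)), ?_⟩
      rcases e3 with e3 | e3
      · exact e3
      · have h1 : n ^ (2 * l ^ 4 * 2 ^ (s + 1)) =
            n ^ (2 * l ^ 4 * 2 ^ s) * (n ^ (2 ^ s)) ^ (2 * l ^ 4) := by
          rw [← pow_mul, ← pow_add]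
          congr 1
          rw [pow_succ]
          ring
        rw [h1] at e3
        exact Nat.le_of_mul_le_mul_right e3 (by positivity)
  obtain ⟨m2, d1, d2⟩ := hC (S - 1) (by omega)
  have e0 : S - (S - 1) = 1 := by omega
  rw [e0] at d2
  refine ⟨m2, d2.trans (le_of_eq (by congr 1; ring)), d1.mono ?_⟩
  have e1 : l ^ 12 = l ^ 7 * l ^ 5 := by ring
  have e2 : l ≤ l ^ 5 := Nat.le_self_pow (by norm_num) l
  have e3 : (S + 16 * l ^ 5) * (100 * l ^ 7) ≤ 17 * l ^ 5 * (100 * l ^ 7) :=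
    Nat.mul_le_mul_right _ (by omega)
  have e4 : 17 * l ^ 5 * (100 * l ^ 7) = 1700 * l ^ 12 := by ring
  have e5 : l + 1 ≤ 2 * l ^ 12 := by
    have : l ≤ l ^ 12 := Nat.le_self_pow (by norm_num) l
    omega
  have e6 : (S - 1) * (2 * l ^ 4 * (100 * l ^ 7)) ≤ l * (2 * l ^ 4 * (100 * l ^ 7)) :=
    Nat.mul_le_mul_right _ (by omega)
  have e7 : l * (2 * l ^ 4 * (100 * l ^ 7)) = 200 * l ^ 12 := by ring
  omega

end Pool.Agent.KS6_87.HN
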