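import Pool.Agent.KS6_87.HN.Level

set_option autoImplicit false

namespace Pool.Agent.KS6_87.HN

open Finset Filter
open scoped Nat

theorem params : ∃ n0 : ℕ, ∀ n, n0 ≤ n → 10 ≤ Nat.log 2 n ∧
    64 * (Nat.log 2 n) ^ 8 ≤ 2 ^ (Nat.log 2 n) ∧ 512 ^ (n / 2) ≤ (n / 2)! := by
  have h1 : ∃ l0 : ℕ, ∀ l, l0 ≤ l → 64 * l ^ 8 ≤ 2 ^ l := by
    have h := tendsto_pow_const_div_const_pow_of_one_lt 8 (show (1 : ℝ) < 2 by norm_num)
    have h2 := (h.eventually (gt_mem_nhds (show (0 : ℝ) < 1 / 64 by norm_num)))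
    obtain ⟨l0, hl0⟩ := eventually_atTop.mp h2
    refine ⟨l0, fun l hl => ?_⟩
    have h3 := hl0 l hl
    rw [div_lt_iff₀ (by positivity)] at h3
    have h4 : 64 * (l : ℝ) ^ 8 ≤ 2 ^ l := by linarith
    exact_mod_cast h4
  have h2 : ∃ a0 : ℕ, ∀ a, a0 ≤ a → 512 ^ a ≤ a ! := by
    have h := FloorSemiring.tendsto_pow_div_factorial_atTop (512 : ℝ)
    have h2 := (h.eventually (gt_mem_nhds (show (0 : ℝ) < 1 by norm_num)))
    obtain ⟨a0, ha0⟩ := eventually_atTop.mp h2
    refine ⟨a0, fun a ha => ?_⟩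
    have h3 := ha0 a ha
    have hpos : (0 : ℝ) < (a ! : ℕ) := by exact_mod_cast Nat.factorial_pos a
    rw [div_lt_iff₀ hpos, one_mul] at h3
    exact_mod_cast h3.le
  obtain ⟨l0, hl0⟩ := h1
  obtain ⟨a0, ha0⟩ := h2
  refine ⟨2 ^ (l0 + 10) + 2 * a0, fun n hn => ?_⟩
  have hn0 : n ≠ 0 := by
    have : 0 < 2 ^ (l0 + 10) := by positivity
    omega
  have hlog : l0 + 10 ≤ Nat.log 2 n :=
    (Nat.le_log_iff_pow_le (by norm_num) hn0).mpr (by omega)
  refine ⟨by omega, hl0 _ (by omega), ha0 _ ?_⟩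
  have h2 : 2 * a0 ≤ n := by
    have : 0 < 2 ^ (l0 + 10) := by positivity
    omega
  omega

/-- every `m ≤ n!` is a sum of polylogarithmically many divisors of `n!` (with repetitions). -/
theorem sub_zero_all : ∃ C0 : ℕ, ∀ n m, m ≤ n ! →
    Sub (n !) (C0 + 2000 * (Nat.log 2 n) ^ 13) m 0 := by
  obtain ⟨n0, hn0⟩ := params
  refine ⟨n0 !, ?_⟩
  intro n
  induction n using Nat.strong_induction_on with
  | _ n ih =>
    intro m hm
    by_cases hn : n0 ≤ n
    · obtain ⟨h10, hbig, hfac⟩ := hn0 n hn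
      obtain ⟨m', h1, h2⟩ := level n (Nat.log 2 n) rfl h10 hbig hfac m hm
      have hnpos : 0 < n := by
        rcases Nat.eq_zero_or_pos n with h | h
        · subst h; simp at h10
        · exact h
      have h3 := ih (n / 2) (Nat.div_lt_self hnpos (by norm_num)) m' h1
      have h4 : Sub (n !) (n0 ! + 2000 * (Nat.log 2 (n / 2)) ^ 13) m' 0 :=
        h3.dvd (Nat.factorial_dvd_factorial (Nat.div_le_self _ _))
      refine (h2.trans h4).mono ?_
      have h5 : Nat.log 2 (n / 2) = Nat.log 2 n - 1 := Nat.log_div_base 2 n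
      rw [h5]
      set l := Nat.log 2 n with hl
      obtain ⟨k, hk⟩ : ∃ k, l = k + 1 := ⟨l - 1, by omega⟩
      rw [hk]
      simp only [Nat.add_sub_cancel]
      have h6 : k ^ 13 ≤ k * (k + 1) ^ 12 := by
        calc k ^ 13 = k * k ^ 12 := by ring
          _ ≤ k * (k + 1) ^ 12 := Nat.mul_le_mul_left _ (Nat.pow_le_pow_left (by omega) _)
      have h7 : (k + 1) ^ 13 = k * (k + 1) ^ 12 + (k + 1) ^ 12 := by ring
      omega
    · push Not at hn
      refine ⟨Multiset.replicate m 1, ?_, ?_, ?_⟩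
      · rw [Multiset.card_replicate]
        have : n ! ≤ n0 ! := Nat.factorial_le hn.le
        omega
      · intro d hd
        rw [Multiset.eq_of_mem_replicate hd]
        exact one_dvd _
      · simp

/-- merging equal divisors -/
theorem distinct_aux (N : ℕ) (hN : 0 < N) : ∀ (k : ℕ) (M : Multiset ℕ), M.card = k →
    (∀ d ∈ M, d * 2 ^ k ∣ N) → ∃ S : Finset ℕ, S ⊆ N.divisors ∧ S.card ≤ k ∧ ∑ d ∈ S, d = M.sum := by
  intro k
  induction k with
  | zero =>
    intro M hM _
    rw [Multiset.card_eq_zero] at hM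
    subst hM
    exact ⟨∅, by simp, by simp, by simp⟩
  | succ k ih =>
    intro M hM hd
    by_cases hnd : M.Nodup
    · refine ⟨⟨M, hnd⟩, ?_, ?_, ?_⟩
      · intro d hdS
        rw [Nat.mem_divisors]
        exact ⟨dvd_trans (dvd_mul_right _ _) (hd d hdS), hN.ne'⟩
      · exact hM.le
      · simp [Finset.sum]
    · rw [Multiset.nodup_iff_count_le_one] at hnd
      push Not at hnd
      obtain ⟨d, hdc⟩ := hnd
      have h2 : Multiset.replicate 2 d ≤ M := Multiset.le_count_iff_replicate_le.mp (by omega)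
      obtain ⟨M', hM'⟩ := Multiset.le_iff_exists_add.mp h2
      have hdM : d ∈ M := by
        rw [← Multiset.count_pos]; omega
      have hcard : (2 * d ::ₘ M').card = k := by
        rw [Multiset.card_cons]
        rw [hM', Multiset.card_add, Multiset.card_replicate] at hM
        omega
      obtain ⟨S, h3, h4, h5⟩ := ih (2 * d ::ₘ M') hcard (by
        intro e he
        rcases Multiset.mem_cons.mp he with rfl | he
        · have := hd d hdM
          rw [pow_succ] at this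
          have e1 : 2 * d * 2 ^ k = d * (2 ^ k * 2) := by ring
          rw [e1]; exact this
        · have h6 : e ∈ M := by rw [hM']; exact Multiset.mem_add.mpr (Or.inr he)
          refine dvd_trans ?_ (hd e h6)
          exact mul_dvd_mul_left e (pow_dvd_pow 2 (Nat.le_succ k)))
      refine ⟨S, h3, h4.trans (Nat.le_succ k), ?_⟩
      rw [h5, hM', Multiset.sum_cons, Multiset.sum_add, Multiset.sum_replicate, smul_eq_mul]

theorem distinct (N k r : ℕ) (hN : 0 < N) (N' : ℕ) (hN' : N' * 2 ^ k ∣ N) (h : Sub N' k r 0) :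
    ∃ S : Finset ℕ, S ⊆ N.divisors ∧ S.card ≤ k ∧ ∑ d ∈ S, d = r := by
  obtain ⟨M, h1, h2, h3⟩ := h
  obtain ⟨S, h4, h5, h6⟩ := distinct_aux N hN M.card M rfl (by
    intro d hd
    refine dvd_trans (mul_dvd_mul (h2 d hd) (pow_dvd_pow 2 h1)) hN')
  exact ⟨S, h4, h5.trans h1, by rw [h6]; omega⟩

/-- final counting bound for one `n` -/
theorem final_count (C0 : ℕ) (hC0 : ∀ n m, m ≤ n ! → Sub (n !) (C0 + 2000 * (Nat.log 2 n) ^ 13) m 0)
    (n l k : ℕ) (hl : l = Nat.log 2 n) (hk : k = C0 + 2000 * l ^ 13)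
    (hkn : 4 * (l + 1) * k ≤ n) (m : ℕ) (hm : m ≤ n !) :
    ∃ S : Finset ℕ, S ⊆ (n !).divisors ∧ S.card ≤ k + 2 * (l + 1) * k + 1 ∧ ∑ d ∈ S, d = m := by
  classical
  have hN0 : 0 < n ! := Nat.factorial_pos n
  have hnu : n < 2 ^ (l + 1) := by rw [hl]; exact Nat.lt_pow_succ_log_self (by norm_num) n
  rcases Nat.lt_or_ge m (n !) with hlt | hge
  swap
  · have : m = n ! := by omega
    exact ⟨{n !}, by simp [hN0.ne'], by simp, by simp [this]⟩
  set k' := 2 * (l + 1) * k with hk'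
  have h2k' : 2 ^ k' ∣ n ! := by
    refine dvd_trans (two_pow_dvd_factorial k') (Nat.factorial_dvd_factorial ?_)
    rw [hk']
    calc 2 * (2 * (l + 1) * k) = 4 * (l + 1) * k := by ring
      _ ≤ n := hkn
  set Q := n ! / 2 ^ k' with hQ
  have hQ2 : Q * 2 ^ k' = n ! := Nat.div_mul_cancel h2k'
  have hQ0 : 0 < Q := by
    rcases Nat.eq_zero_or_pos Q with h | h
    · rw [h] at hQ2; omega
    · exact h
  set q := m / Q with hq
  set r := m % Q with hr
  have hmqr : Q * q + r = m := Nat.div_add_mod m Q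
  have hrQ : r < Q := Nat.mod_lt _ hQ0
  have hqlt : q < 2 ^ k' := by
    rw [hq, Nat.div_lt_iff_lt_mul hQ0, mul_comm, hQ2]
    exact hlt
  -- the small part
  have h2kn : 2 * k ≤ n := by
    have : 2 * k ≤ 4 * (l + 1) * k := by
      calc 2 * k = 2 * 1 * k := by ring
        _ ≤ 4 * (l + 1) * k := by
          apply Nat.mul_le_mul_right
          omega
    omega
  have hQle : Q ≤ (n - 2 * k)! := by
    have h1 : n ! ≤ (n - 2 * k)! * 2 ^ k' := by
      have h2 : (n - 2 * k)! * n.descFactorial (2 * k) = n ! :=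
        Nat.factorial_mul_descFactorial h2kn
      rw [← h2]
      apply Nat.mul_le_mul_left
      calc n.descFactorial (2 * k) ≤ n ^ (2 * k) := Nat.descFactorial_le_pow n (2 * k)
        _ ≤ (2 ^ (l + 1)) ^ (2 * k) := Nat.pow_le_pow_left hnu.le _
        _ = 2 ^ k' := by rw [← pow_mul, hk']; ring_nf
    have h3 : Q * 2 ^ k' ≤ (n - 2 * k)! * 2 ^ k' := by rw [hQ2]; exact h1
    exact Nat.le_of_mul_le_mul_right h3 (by positivity)
  have hsub : Sub ((n - 2 * k)!) k r 0 := by
    refine (hC0 (n - 2 * k) r (hrQ.le.trans hQle)).mono ?_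
    have h1 : Nat.log 2 (n - 2 * k) ≤ l := by rw [hl]; exact Nat.log_mono_right (Nat.sub_le _ _)
    have h2 := Nat.pow_le_pow_left h1 13
    omega
  have hslack : (n - 2 * k)! * 2 ^ k ∣ n ! := by
    have h1 : (n - 2 * k)! * (2 * k)! ∣ n ! := by
      have := Nat.factorial_mul_factorial_dvd_factorial h2kn
      rwa [mul_comm] at this
    exact dvd_trans (mul_dvd_mul_left _ (two_pow_dvd_factorial k)) h1
  obtain ⟨S1, hS1, hS1c, hS1s⟩ := distinct (n !) k r hN0 ((n - 2 * k)!) hslack hsub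
  -- the binary part
  set I := q.bitIndices.toFinset with hI
  have hIsum : ∑ i ∈ I, 2 ^ i = q := Finset.sum_toFinset_bitIndices_two_pow q
  have hIlt : ∀ i ∈ I, i < k' := by
    intro i hi
    have h1 : 2 ^ i ≤ q := by
      rw [← hIsum]
      exact Finset.single_le_sum (f := fun i => 2 ^ i) (fun _ _ => Nat.zero_le _) hi
    exact (Nat.pow_lt_pow_iff_right (by norm_num : 1 < 2)).mp (lt_of_le_of_lt h1 hqlt)
  set S2 := I.image (fun i => 2 ^ i * Q) with hS2
  have hS2inj : Set.InjOn (fun i => 2 ^ i * Q) I := by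
    intro i _ j _ h
    simp only at h
    have := Nat.eq_of_mul_eq_mul_right hQ0 h
    exact Nat.pow_right_injective (le_refl 2) this
  have hS2s : ∑ d ∈ S2, d = Q * q := by
    rw [hS2, Finset.sum_image hS2inj, ← Finset.sum_mul, hIsum, mul_comm]
  have hS2c : S2.card ≤ k' := by
    rw [hS2, Finset.card_image_of_injOn hS2inj]
    have : I ⊆ Finset.range k' := fun i hi => Finset.mem_range.mpr (hIlt i hi)
    simpa using Finset.card_le_card this
  have hdisj : Disjoint S1 S2 := by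
    rw [Finset.disjoint_left]
    intro d hd1 hd2
    rw [hS2, Finset.mem_image] at hd2
    obtain ⟨i, _, rfl⟩ := hd2
    have h1 : 2 ^ i * Q ≤ r := by
      rw [← hS1s]
      exact Finset.single_le_sum (f := fun d => d) (fun _ _ => Nat.zero_le _) hd1
    have h2 : Q ≤ 2 ^ i * Q := Nat.le_mul_of_pos_left _ (by positivity)
    omega
  refine ⟨S1 ∪ S2, ?_, ?_, ?_⟩
  · apply Finset.union_subset hS1
    intro d hd
    rw [hS2, Finset.mem_image] at hd
    obtain ⟨i, hi, rfl⟩ := hd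
    rw [Nat.mem_divisors]
    refine ⟨?_, hN0.ne'⟩
    rw [← hQ2, mul_comm]
    exact mul_dvd_mul_left Q (pow_dvd_pow 2 (hIlt i hi).le)
  · rw [Finset.card_union_of_disjoint hdisj]
    omega
  · rw [Finset.sum_union hdisj, hS1s, hS2s]
    omega

end Pool.Agent.KS6_87.HN
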