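import Pool.Agent.KS6_87.HN.Types
import Pool.Agent.KS6_87.HN.Refine
import Pool.Agent.KS6_87.HN.Hit

set_option autoImplicit false

namespace Pool.Agent.KS6_87.HN

open Finset

/-- `m` is `m'` plus a sum of at most `k` divisors of `N`, repetitions allowed. -/
def Sub (N k m m' : ℕ) : Prop :=
  ∃ M : Multiset ℕ, M.card ≤ k ∧ (∀ d ∈ M, d ∣ N) ∧ m = M.sum + m'

theorem Sub.trans {N k k' m m' m'' : ℕ} (h : Sub N k m m') (h' : Sub N k' m' m'') :
    Sub N (k + k') m m'' := by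
  obtain ⟨M, h1, h2, h3⟩ := h
  obtain ⟨M', h1', h2', h3'⟩ := h'
  refine ⟨M + M', ?_, ?_, ?_⟩
  · rw [Multiset.card_add]; omega
  · intro d hd
    rcases Multiset.mem_add.mp hd with h | h
    · exact h2 d h
    · exact h2' d h
  · rw [Multiset.sum_add]; omega

theorem Sub.refl (N m : ℕ) : Sub N 0 m m := ⟨0, by simp, by simp, by simp⟩

theorem Sub.mono {N k k' m m' : ℕ} (h : Sub N k m m') (hk : k ≤ k') : Sub N k' m m' := by
  obtain ⟨M, h1, h2, h3⟩ := h
  exact ⟨M, h1.trans hk, h2, h3⟩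

theorem chain (n D : ℕ) (hD : 0 < D) (hn : 2 ≤ n) (hsm : ∀ p, p.Prime → p ∣ D → p ≤ n)
    (z : ℝ) (hz1 : 1 ≤ z) (hz2 : z ≤ D) : ∃ g : ℕ, 0 < g ∧ g ∣ D ∧ (g : ℝ) ≤ z ∧ z < n * g := by
  classical
  set S : Finset ℕ := D.divisors.filter (fun g : ℕ => (g : ℝ) ≤ z) with hS
  have hne : S.Nonempty := ⟨1, by
    rw [hS, Finset.mem_filter, Nat.mem_divisors]
    exact ⟨⟨one_dvd _, hD.ne'⟩, by simpa using hz1⟩⟩
  set g := S.max' hne with hg
  have hgS : g ∈ S := S.max'_mem hne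
  have hgS' := hgS
  rw [hS, Finset.mem_filter, Nat.mem_divisors] at hgS'
  obtain ⟨⟨hgD, _⟩, hgz⟩ := hgS'
  have hg0 : 0 < g := Nat.pos_of_dvd_of_pos hgD hD
  have hgR : (0 : ℝ) < g := by exact_mod_cast hg0
  refine ⟨g, hg0, hgD, hgz, ?_⟩
  by_cases h : g = D
  · have hnR : (2 : ℝ) ≤ n := by exact_mod_cast hn
    rw [← h] at hz2
    nlinarith
  · obtain ⟨q, hq⟩ := hgD
    have hq1 : q ≠ 1 := by
      rintro rfl
      rw [mul_one] at hq
      exact h hq.symm
    have hp := Nat.minFac_prime hq1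
    set p := q.minFac with hpdef
    have hpq : p ∣ q := Nat.minFac_dvd q
    have hgp : g * p ∣ D := by rw [hq]; exact mul_dvd_mul_left g hpq
    have hpn : p ≤ n := hsm p hp (dvd_trans (dvd_mul_left p g) hgp)
    have hlt : z < (g * p : ℕ) := by
      by_contra hc
      push Not at hc
      have hmem : g * p ∈ S := by
        rw [hS, Finset.mem_filter, Nat.mem_divisors]
        exact ⟨⟨hgp, hD.ne'⟩, hc⟩
      have := S.le_max' _ hmem
      rw [← hg] at this
      have h2 := hp.two_le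
      nlinarith
    calc z < (g * p : ℕ) := hlt
      _ = (p : ℝ) * g := by push_cast; ring
      _ ≤ n * g := by
        apply mul_le_mul_of_nonneg_right _ hgR.le
        exact_mod_cast hpn

/-- divisors of `D * 2 ^ E` are dense in `[1, D]`. -/
theorem dense (n D E : ℕ) (hD : 0 < D) (hn : 2 ≤ n) (hsm : ∀ p, p.Prime → p ∣ D → p ≤ n)
    (hE : n ≤ 2 ^ E) (z : ℝ) (hz1 : 1 ≤ z) (hz2 : z ≤ D) :
    ∃ h : ℕ, h ∣ D * 2 ^ E ∧ z ≤ h ∧ (h : ℝ) < 2 * z := by
  obtain ⟨g, hg0, hgD, hgz, hzg⟩ := chain n D hD hn hsm z hz1 hz2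
  have hex : ∃ e, z ≤ ((g * 2 ^ e : ℕ) : ℝ) := by
    refine ⟨E, ?_⟩
    push_cast
    have : (n : ℝ) ≤ 2 ^ E := by exact_mod_cast hE
    have hgR : (0 : ℝ) < g := by exact_mod_cast hg0
    nlinarith
  classical
  set e := Nat.find hex with he
  have h1 := Nat.find_spec hex
  have heE : e ≤ E := Nat.find_min' hex (by
    push_cast
    have : (n : ℝ) ≤ 2 ^ E := by exact_mod_cast hE
    have hgR : (0 : ℝ) < g := by exact_mod_cast hg0
    nlinarith)
  refine ⟨g * 2 ^ e, mul_dvd_mul hgD (pow_dvd_pow 2 heE), h1, ?_⟩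
  rcases Nat.eq_zero_or_pos e with h | h
  · rw [h]; push_cast; linarith
  · obtain ⟨e', he'⟩ : ∃ e', e = e' + 1 := ⟨e - 1, by omega⟩
    have := Nat.find_min hex (m := e') (by omega)
    push Not at this
    rw [he']
    push_cast at this ⊢
    rw [pow_succ]
    linarith

theorem halving (Res D : ℕ) (hRes : 0 < Res)
    (hdense : ∀ z : ℝ, 1 ≤ z → z ≤ D → ∃ h : ℕ, h ∣ Res ∧ z ≤ h ∧ (h : ℝ) < 2 * z) (lam : ℝ)
    (hlam : 0 < lam) (hlamD : 1 / lam ≤ D) :
    ∀ (G : ℕ) (ρ : ℝ), 0 ≤ ρ → ρ ≤ 1 → ∃ M : Multiset ℕ, M.card ≤ G ∧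
      (∀ h ∈ M, h ∣ Res ∧ 0 < h) ∧ 0 ≤ ρ - (M.map (fun h : ℕ => 1 / (h : ℝ))).sum ∧
      (ρ - (M.map (fun h : ℕ => 1 / (h : ℝ))).sum ≤ lam ∨
        ρ - (M.map (fun h : ℕ => 1 / (h : ℝ))).sum ≤ ρ / 2 ^ G) := by
  intro G
  induction G with
  | zero =>
    intro ρ h0 h1
    refine ⟨0, by simp, by simp, by simpa using h0, ?_⟩
    right; simp
  | succ G ih =>
    intro ρ h0 h1
    by_cases hρ : ρ ≤ lam
    · refine ⟨0, by simp, by simp, by simpa using h0, ?_⟩
      left; simpa using hρ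
    · push Not at hρ
      have hρ0 : 0 < ρ := lt_trans hlam hρ
      obtain ⟨h, hh1, hh2, hh3⟩ := hdense (1 / ρ) (by rw [le_div_iff₀ hρ0]; linarith)
        (by
          refine le_trans ?_ hlamD
          exact one_div_le_one_div_of_le hlam hρ.le)
      have hhpos : 0 < h := Nat.pos_of_dvd_of_pos hh1 hRes
      have hhR : (0 : ℝ) < h := by exact_mod_cast hhpos
      have e1 : 1 / (h : ℝ) ≤ ρ := by
        rw [div_le_iff₀ hρ0] at hh2
        rw [div_le_iff₀ hhR]
        linarith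
      have e2 : ρ / 2 ≤ 1 / (h : ℝ) := by
        rw [le_div_iff₀ hhR]
        have : (h : ℝ) * ρ < 2 := by
          calc (h : ℝ) * ρ < 2 * (1 / ρ) * ρ := mul_lt_mul_of_pos_right hh3 hρ0
            _ = 2 := by field_simp
        linarith
      obtain ⟨M, m1, m2, m3, m4⟩ := ih (ρ - 1 / h) (by linarith) (by
        have : 0 < 1 / (h : ℝ) := by positivity
        linarith)
      refine ⟨h ::ₘ M, ?_, ?_, ?_, ?_⟩
      · rw [Multiset.card_cons]; omega
      · intro x hx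
        rcases Multiset.mem_cons.mp hx with rfl | hx
        · exact ⟨hh1, hhpos⟩
        · exact m2 x hx
      · rw [Multiset.map_cons, Multiset.sum_cons]; linarith
      · rw [Multiset.map_cons, Multiset.sum_cons]
        rcases m4 with m4 | m4
        · left; linarith
        · right
          have : (ρ - 1 / (h : ℝ)) / 2 ^ G ≤ ρ / 2 ^ (G + 1) := by
            rw [pow_succ, mul_comm, ← div_div]
            apply div_le_div_of_nonneg_right _ (by positivity)
            linarith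
          linarith

end Pool.Agent.KS6_87.HN
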