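import Pool.Agent.KS6_87.HN.Level2

set_option autoImplicit false

namespace Pool.Agent.KS6_87.HN

open Finset Filter
open scoped Nat

theorem two_pow_le_factorial_succ (k : ℕ) : 2 ^ k ≤ (k + 1)! := by
  induction k with
  | zero => simp
  | succ k ih =>
    rw [Nat.factorial_succ, pow_succ, mul_comm]
    exact Nat.mul_le_mul (by omega) ih

/-- the logarithmic inequality that makes the second level negligible -/
theorem small_log (C0 : ℕ) : ∃ l0 : ℕ, ∀ l, l0 ≤ l →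
    C0 + 2000 * (Nat.log 2 (8 * l ^ 5 + 1)) ^ 13 ≤ l ^ 12 := by
  set K : ℕ := C0 + 2000 * 14 ^ 13 with hK
  have hK0 : 0 < K := by omega
  have h1 : ∃ t0 : ℕ, ∀ t, t0 ≤ t → K * t ^ 13 ≤ 2 ^ t := by
    have h := tendsto_pow_const_div_const_pow_of_one_lt 13 (show (1 : ℝ) < 2 by norm_num)
    have hK0' : (0 : ℝ) < K := by exact_mod_cast hK0
    have h2 := (h.eventually (gt_mem_nhds (show (0 : ℝ) < 1 / K by positivity)))
    obtain ⟨t0, ht0⟩ := eventually_atTop.mp h2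
    refine ⟨t0, fun t ht => ?_⟩
    have h3 := ht0 t ht
    rw [div_lt_iff₀ (by positivity), div_mul_eq_mul_div, lt_div_iff₀ hK0', one_mul] at h3
    have h4 : (K : ℝ) * (t : ℝ) ^ 13 ≤ 2 ^ t := by linarith
    exact_mod_cast h4
  obtain ⟨t0, ht0⟩ := h1
  refine ⟨2 ^ (t0 + 1), fun l hl => ?_⟩
  have hl0 : l ≠ 0 := by
    have : 0 < 2 ^ (t0 + 1) := by positivity
    omega
  obtain ⟨t, ht⟩ : ∃ t, t = Nat.log 2 l := ⟨_, rfl⟩
  have htt : t0 + 1 ≤ t := by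
    rw [ht]; exact (Nat.le_log_iff_pow_le (by norm_num) hl0).mpr hl
  have h2l : 2 ^ t ≤ l := by rw [ht]; exact Nat.pow_log_le_self 2 hl0
  have hl2 : l < 2 ^ (t + 1) := by rw [ht]; exact Nat.lt_pow_succ_log_self (by norm_num) l
  have h3 : Nat.log 2 (8 * l ^ 5 + 1) ≤ 5 * t + 9 := by
    apply Nat.le_of_lt_succ
    rw [Nat.log_lt_iff_lt_pow (by norm_num) (by omega)]
    have h4 : l ^ 5 ≤ (2 ^ (t + 1)) ^ 5 := Nat.pow_le_pow_left hl2.le 5
    have h5 : (2 ^ (t + 1)) ^ 5 = 2 ^ (5 * t + 5) := by rw [← pow_mul]; ring_nf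
    have h6 : 2 ^ (5 * t + 9 + 1) = 32 * 2 ^ (5 * t + 5) := by
      rw [show 5 * t + 9 + 1 = 5 + (5 * t + 5) by ring, pow_add]; norm_num
    have h7 : 1 ≤ 2 ^ (5 * t + 5) := Nat.one_le_two_pow
    change 8 * l ^ 5 + 1 < 2 ^ (5 * t + 9 + 1)
    omega
  have h4 : 5 * t + 9 ≤ 14 * t := by omega
  have h5 : (Nat.log 2 (8 * l ^ 5 + 1)) ^ 13 ≤ (14 * t) ^ 13 :=
    Nat.pow_le_pow_left (h3.trans h4) 13
  have h6 : 1 ≤ t ^ 13 := Nat.one_le_pow _ _ (by omega)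
  calc C0 + 2000 * (Nat.log 2 (8 * l ^ 5 + 1)) ^ 13 ≤ C0 * t ^ 13 + 2000 * (14 * t) ^ 13 := by
        have : C0 * 1 ≤ C0 * t ^ 13 := Nat.mul_le_mul_left _ h6
        omega
    _ = K * t ^ 13 := by rw [hK]; ring
    _ ≤ 2 ^ t := ht0 t (by omega)
    _ ≤ l := h2l
    _ ≤ l ^ 12 := Nat.le_self_pow (by norm_num) l

/-- representation with repetitions, exponent `12` -/
theorem sub_twelve : ∃ n1 : ℕ, ∀ n, n1 ≤ n → ∀ N, N ∣ n ! → (n / 2)! ∣ N →
    primorial (n / 2) * 2 ^ (Nat.log 2 n + 1) ∣ N → ∀ m, m ≤ N →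
    Sub N (2001 * (Nat.log 2 n) ^ 12) m 0 := by
  obtain ⟨n0, hn0⟩ := params
  obtain ⟨C0, hC0⟩ := sub_zero_all
  obtain ⟨l0, hl0⟩ := small_log C0
  refine ⟨n0 + 2 ^ (l0 + 1), fun n hn N h1 h2 h3 m hm => ?_⟩
  have hnA : n0 ≤ n := le_trans (Nat.le_add_right _ _) hn
  have hnB : 2 ^ (l0 + 1) ≤ n := le_trans (Nat.le_add_left _ _) hn
  obtain ⟨h10, hbig, hfac⟩ := hn0 n hnA
  have hnn : n ≠ 0 := by
    have : 0 < 2 ^ (l0 + 1) := by positivity
    omega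
  obtain ⟨l, hl⟩ : ∃ l, l = Nat.log 2 n := ⟨_, rfl⟩
  rw [← hl] at h10 hbig h3 ⊢
  obtain ⟨m', g1, g2⟩ := level2 n l N hl h10 hbig hfac h1 h2 h3 m hm
  have hll : l0 ≤ l := by
    rw [hl]
    refine le_trans (by omega : l0 ≤ l0 + 1) ?_
    exact (Nat.le_log_iff_pow_le (by norm_num) hnn).mpr hnB
  have hnl : 2 ^ l ≤ n := by rw [hl]; exact Nat.pow_log_le_self 2 hnn
  have hnu : n < 2 ^ (l + 1) := by rw [hl]; exact Nat.lt_pow_succ_log_self (by norm_num) n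
  have g3 : m' ≤ (8 * l ^ 5 + 1)! := by
    refine g1.trans (le_trans ?_ (two_pow_le_factorial_succ _))
    calc n ^ (4 * l ^ 4) ≤ (2 ^ (l + 1)) ^ (4 * l ^ 4) := Nat.pow_le_pow_left hnu.le _
      _ = 2 ^ ((l + 1) * (4 * l ^ 4)) := by rw [← pow_mul]
      _ ≤ 2 ^ (8 * l ^ 5) := by
          apply Nat.pow_le_pow_right (by norm_num)
          calc (l + 1) * (4 * l ^ 4) ≤ (2 * l) * (4 * l ^ 4) := Nat.mul_le_mul_right _ (by omega)
            _ = 8 * l ^ 5 := by ring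
  have g4 := hC0 (8 * l ^ 5 + 1) m' g3
  have g5 : (8 * l ^ 5 + 1)! ∣ N := by
    refine dvd_trans (Nat.factorial_dvd_factorial ?_) h2
    have e1 : 64 * l ^ 8 ≤ n := hbig.trans hnl
    have e2 : l ^ 8 = l ^ 5 * l ^ 3 := by ring
    have e3 : 1000 ≤ l ^ 3 := by
      calc 1000 = 10 ^ 3 := by norm_num
        _ ≤ l ^ 3 := Nat.pow_le_pow_left h10 3
    have e4 : l ^ 5 * 1000 ≤ l ^ 8 := by rw [e2]; exact Nat.mul_le_mul_left _ e3
    have e5 : 1 ≤ l ^ 5 := Nat.one_le_pow _ _ (by omega)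
    omega
  refine (g2.trans (g4.dvd g5)).mono ?_
  have := hl0 l hll
  omega

/-- **Every `m ≤ n!` is a sum of at most `4002 (log₂ n)^12` distinct divisors of `n!`.** -/
theorem distinct_twelve : ∃ n2 : ℕ, ∀ n, n2 ≤ n → ∀ m, m ≤ n ! →
    ∃ S : Finset ℕ, S ⊆ (n !).divisors ∧ S.card ≤ 4002 * (Nat.log 2 n) ^ 12 ∧ ∑ d ∈ S, d = m := by
  classical
  obtain ⟨n1, hn1⟩ := sub_twelve
  have h1 : ∃ l0 : ℕ, ∀ l : ℕ, l0 ≤ l → l ^ 13 ≤ 2 ^ l := by
    have h := tendsto_pow_const_div_const_pow_of_one_lt 13 (show (1 : ℝ) < 2 by norm_num)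
    have h2 := (h.eventually (gt_mem_nhds (show (0 : ℝ) < 1 by norm_num)))
    obtain ⟨l0, hl0⟩ := eventually_atTop.mp h2
    refine ⟨l0, fun l hl => ?_⟩
    have h3 := hl0 l hl
    rw [div_lt_iff₀ (by positivity)] at h3
    have h4 : (l : ℝ) ^ 13 ≤ 2 ^ l := by linarith
    exact_mod_cast h4
  obtain ⟨l0, hl0⟩ := h1
  refine ⟨n1 + 2 ^ (l0 + 8100), fun n hn m hm => ?_⟩
  have hnA : n1 ≤ n := le_trans (Nat.le_add_right _ _) hn
  have hnB : 2 ^ (l0 + 8100) ≤ n := le_trans (Nat.le_add_left _ _) hn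
  have hnn : n ≠ 0 := by
    have h0 : 0 < 2 ^ (l0 + 8100) := by positivity
    exact (lt_of_lt_of_le h0 hnB).ne'
  obtain ⟨l, hl⟩ : ∃ l, l = Nat.log 2 n := ⟨_, rfl⟩
  rw [← hl]
  have hll : l0 + 8100 ≤ l := by
    rw [hl]; exact (Nat.le_log_iff_pow_le (by norm_num) hnn).mpr hnB
  have hnl : 2 ^ l ≤ n := by rw [hl]; exact Nat.pow_log_le_self 2 hnn
  obtain ⟨k, hk⟩ : ∃ k, k = 2001 * l ^ 12 := ⟨_, rfl⟩
  have hka : 2 * (k + (l + 1)) ≤ n / 2 := by
    have e1 : l ^ 13 ≤ n := (hl0 l (by omega)).trans hnl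
    have e2 : 8100 * l ^ 12 ≤ l ^ 13 := by
      rw [pow_succ' l 12]; exact Nat.mul_le_mul_right _ (by omega)
    have e3 : l ≤ l ^ 12 := Nat.le_self_pow (by norm_num) l
    omega
  set a := n / 2 with ha
  have haa : a ! * a ! ∣ n ! := by
    refine dvd_trans (Nat.factorial_mul_factorial_dvd_factorial_add a a) ?_
    exact Nat.factorial_dvd_factorial (by omega)
  have h2a : 2 ^ (k + (l + 1)) ∣ a ! :=
    dvd_trans (two_pow_dvd_factorial _) (Nat.factorial_dvd_factorial hka)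
  have hVa : primorial a ∣ a ! := by
    apply Finset.prod_primes_dvd
    · intro p hp
      exact (Nat.mem_primesLE.mp hp).2.prime
    · intro p hp
      have := Nat.mem_primesLE.mp hp
      exact (Nat.Prime.dvd_factorial this.2).mpr this.1
  have h2k : 2 ^ k ∣ n ! := by
    refine dvd_trans (dvd_trans (pow_dvd_pow 2 (by omega)) h2a) ?_
    exact dvd_trans (dvd_mul_right _ _) haa
  set Q := n ! / 2 ^ k with hQ
  have hQ2 : Q * 2 ^ k = n ! := Nat.div_mul_cancel h2k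
  have hN0 : 0 < n ! := Nat.factorial_pos n
  have hQ0 : 0 < Q := by
    rcases Nat.eq_zero_or_pos Q with h | h
    · rw [h] at hQ2; omega
    · exact h
  have hc1 : Q ∣ n ! := ⟨2 ^ k, hQ2.symm⟩
  have cancel : ∀ x, x * 2 ^ k ∣ n ! → x ∣ Q := fun x hx => by
    rw [← hQ2] at hx
    exact Nat.dvd_of_mul_dvd_mul_right (by positivity) hx
  have hc2 : a ! ∣ Q := cancel _ (dvd_trans (mul_dvd_mul_left _
    (dvd_trans (pow_dvd_pow 2 (by omega)) h2a)) haa)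
  have hc3 : primorial a * 2 ^ (Nat.log 2 n + 1) ∣ Q := by
    rw [← hl]
    apply cancel
    rw [mul_assoc, ← pow_add, add_comm (l + 1) k]
    exact dvd_trans (mul_dvd_mul hVa h2a) haa
  rcases Nat.lt_or_ge m (n !) with hlt | hge
  swap
  · have : m = n ! := by omega
    refine ⟨{n !}, by simp [hN0.ne'], ?_, by simp [this]⟩
    rw [card_singleton]
    have : 1 ≤ l ^ 12 := Nat.one_le_pow _ _ (by omega)
    omega
  obtain ⟨q, hq⟩ : ∃ q, q = m / Q := ⟨_, rfl⟩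
  obtain ⟨r, hr⟩ : ∃ r, r = m % Q := ⟨_, rfl⟩
  have hmqr : Q * q + r = m := by rw [hq, hr]; exact Nat.div_add_mod m Q
  have hrQ : r < Q := by rw [hr]; exact Nat.mod_lt _ hQ0
  have hqlt : q < 2 ^ k := by
    rw [hq, Nat.div_lt_iff_lt_mul hQ0, mul_comm, hQ2]
    exact hlt
  have hsub := hn1 n hnA Q hc1 hc2 hc3 r hrQ.le
  rw [← hl, ← hk] at hsub
  obtain ⟨S1, hS1, hS1c, hS1s⟩ := distinct (n !) k r hN0 Q (by rw [hQ2]) hsub
  set I := q.bitIndices.toFinset with hI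
  have hIsum : ∑ i ∈ I, 2 ^ i = q := Finset.sum_toFinset_bitIndices_two_pow q
  have hIlt : ∀ i ∈ I, i < k := by
    intro i hi
    have h1 : 2 ^ i ≤ q := by
      rw [← hIsum]
      exact Finset.single_le_sum (f := fun i => 2 ^ i) (fun _ _ => Nat.zero_le _) hi
    exact (Nat.pow_lt_pow_iff_right (by norm_num : 1 < 2)).mp (lt_of_le_of_lt h1 hqlt)
  set S2 := I.image (fun i => 2 ^ i * Q) with hS2
  have hS2inj : Set.InjOn (fun i => 2 ^ i * Q) I := by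
    intro i _ j _ h
    simp only at h
    have := Nat.eq_of_mul_eq_mul_right hQ0 h
    exact Nat.pow_right_injective (le_refl 2) this
  have hS2s : ∑ d ∈ S2, d = Q * q := by
    rw [hS2, Finset.sum_image hS2inj, ← Finset.sum_mul, hIsum, mul_comm]
  have hS2c : S2.card ≤ k := by
    rw [hS2, Finset.card_image_of_injOn hS2inj]
    have : I ⊆ Finset.range k := fun i hi => Finset.mem_range.mpr (hIlt i hi)
    simpa using Finset.card_le_card this
  have hdisj : Disjoint S1 S2 := by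
    rw [Finset.disjoint_left]
    intro d hd1 hd2
    rw [hS2, Finset.mem_image] at hd2
    obtain ⟨i, _, rfl⟩ := hd2
    have h1 : 2 ^ i * Q ≤ r := by
      rw [← hS1s]
      exact Finset.single_le_sum (f := fun d => d) (fun _ _ => Nat.zero_le _) hd1
    have h2 : Q ≤ 2 ^ i * Q := Nat.le_mul_of_pos_left _ (by positivity)
    omega
  refine ⟨S1 ∪ S2, ?_, ?_, ?_⟩
  · apply Finset.union_subset hS1
    intro d hd
    rw [hS2, Finset.mem_image] at hd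
    obtain ⟨i, hi, rfl⟩ := hd
    rw [Nat.mem_divisors]
    refine ⟨?_, hN0.ne'⟩
    rw [← hQ2, mul_comm]
    exact mul_dvd_mul_left Q (pow_dvd_pow 2 (hIlt i hi).le)
  · rw [Finset.card_union_of_disjoint hdisj]
    omega
  · rw [Finset.sum_union hdisj, hS1s, hS2s]
    omega

end Pool.Agent.KS6_87.HN
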